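import Pool.Agent.H52.PAG.Pdw

/-!
# [H52 PAG P12] van der Lek and the lower central series

Let `J = {s, t}`, `N = DA (M s t)`, `f r = dg true` if `r = t`, `dg false` otherwise, `κ = toCox ∘ inc` (`κ (f s) = s_s`, `κ (f t) = s_t`).
`hM`: `M s s = M t t = 1`, `M s t = M t s ≠ 0`.  `hf`: for `i = j` trivial, otherwise `dg_rel` (and `M.symmetric`).
`(1, g) · inc d = (1, g * d)`: `ra_base` and `da_induction`.  So `inc` is injective, and `rho (inc d) = d` for `d ∈ PD`.
`inc_mem_lcs`: (←) `map_lowerCentralSeries` and monotonicity of `S.lowerCentralSeries n` in `S` (`Subgroup.commutator_mono`), `(PD).map inc ≤ pureA M`.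
(→) an element of `(pureA M).lowerCentralSeries c` is the image of an element `y` of `(⊤ : Subgroup (pureA M)).lowerCentralSeries c`
(`Subgroup.top_subtype_lowerCentralSeries`), `rho y ∈ (⊤.map rho).lowerCentralSeries c ≤ (PD m).lowerCentralSeries c` (`kappa_rho` and
`inc_mem_pureA`), and `rho y = d`.
`free_inf`: `(pureA M).lowerCentralSeries (c + 1) ⊓ closure {gen s, gen t}` is the image of `(PD m).lowerCentralSeries (c + 1)` under the injective `inc`
(`free_lcs`, `Subgroup.equivMapOfInjective`, `IsFreeGroup.ofMulEquiv`).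
-/

namespace Pool.Agent.H52.PAG

open CoxeterSystem Pool.H8.CDW MulOpposite

theorem lcs_mono {G : Type*} [Group G] {S T : Subgroup G} (h : S ≤ T) (n : ℕ) :
    S.lowerCentralSeries n ≤ T.lowerCentralSeries n := by
  induction n with
  | zero => exact h
  | succ n ih =>
    rw [Subgroup.lowerCentralSeries_succ, Subgroup.lowerCentralSeries_succ]
    exact Subgroup.commutator_mono ih h

variable {B : Type*} (M : CoxeterMatrix B)

open Classical in
/-- the letters -/
private noncomputable def ff (s t : B) (r : B) : DA (M s t) := dg (M s t) (decide (r = t))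

private theorem ff_s {s t : B} (hst : s ≠ t) : ff M s t s = dg (M s t) false := by
  simp [ff, hst]

private theorem ff_t (s t : B) : ff M s t t = dg (M s t) true := by
  simp [ff]

private theorem hMM {s t : B} (h : M s t ≠ 0) :
    ∀ i ∈ ({s, t} : Set B), ∀ j ∈ ({s, t} : Set B), M i j ≠ 0 := by
  rintro i (rfl | rfl) j (rfl | rfl)
  · rw [M.diagonal]; exact one_ne_zero
  · exact h
  · rw [M.symmetric]; exact h
  · rw [M.diagonal]; exact one_ne_zero

private theorem hff {s t : B} (hst : s ≠ t) :
    ∀ i ∈ ({s, t} : Set B), ∀ j ∈ ({s, t} : Set B),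
      alt (ff M s t i) (ff M s t j) (M i j) = alt (ff M s t j) (ff M s t i) (M i j) := by
  rintro i hi j hj
  rcases hi with hi | hi <;> rcases hj with hj | hj
  · rw [hi, hj]
  · rw [hi, Set.mem_singleton_iff.1 hj, ff_s M hst, ff_t]
    exact dg_rel
  · rw [Set.mem_singleton_iff.1 hi, hj, ff_s M hst, ff_t, M.symmetric]
    exact dg_rel.symm
  · rw [Set.mem_singleton_iff.1 hi, Set.mem_singleton_iff.1 hj]

/-- the homomorphism to the Coxeter group -/
private def kq (s t : B) (h : M s t ≠ 0) : DA (M s t) →* M.Group := (toCox M).comp (inc M s t h)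

private theorem kq_ff {s t : B} (hst : s ≠ t) (h : M s t ≠ 0) :
    ∀ j ∈ ({s, t} : Set B), kq M s t h (ff M s t j) = M.simple j := by
  rintro j (rfl | rfl)
  · rw [ff_s M hst]
    show toCox M (inc M _ t h (dg _ false)) = _
    rw [inc_dg, toCox_gen]
    rfl
  · rw [ff_t]
    show toCox M (inc M s _ h (dg _ true)) = _
    rw [inc_dg, toCox_gen]
    rfl

private theorem kq_par (s t : B) (h : M s t ≠ 0) (g : DA (M s t)) :
    kq M s t h g ∈ Pool.H8.CDW.par M.toCoxeterSystem ({s, t} : Set B) := by
  have hg : ∀ e : Bool, kq M s t h (dg (M s t) e) ∈ Pool.H8.CDW.par M.toCoxeterSystem ({s, t} : Set B) := by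
    intro e
    show toCox M (inc M s t h (dg _ e)) ∈ _
    rw [inc_dg, toCox_gen, ← CoxeterMatrix.toCoxeterSystem_simple]
    cases e
    · exact simple_mem_par _ (Or.inl rfl)
    · exact simple_mem_par _ (Or.inr rfl)
  induction g using da_induction with
  | h1 => rw [map_one]; exact one_mem _
  | h2 x e ih => rw [map_mul]; exact mul_mem ih (hg e)
  | h3 x e ih => rw [map_mul, map_inv]; exact mul_mem ih (inv_mem (hg e))

/-- the action of the Artin group -/
private noncomputable def aa {s t : B} (hst : s ≠ t) (h : M s t ≠ 0) :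
    Art M →* (Equiv.Perm ({u : M.Group // IsL M.toCoxeterSystem ({s, t} : Set B) u} × DA (M s t)))ᵐᵒᵖ :=
  ra M.toCoxeterSystem ({s, t} : Set B) (ff M s t) (hMM M h) (hff M hst)

private theorem aa_mul {s t : B} (hst : s ≠ t) (h : M s t ≠ 0) (x y : Art M)
    (p : {u : M.Group // IsL M.toCoxeterSystem ({s, t} : Set B) u} × DA (M s t)) :
    (aa M hst h (x * y)).unop p = (aa M hst h y).unop ((aa M hst h x).unop p) :=
  ra_mul _ _ _ _ _ x y p

private theorem aa_letter {s t : B} (hst : s ≠ t) (h : M s t ≠ 0) (e : Bool) (g : DA (M s t)) :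
    (aa M hst h (inc M s t h (dg (M s t) e))).unop (bpt M ({s, t} : Set B), g) =
      (bpt M ({s, t} : Set B), g * dg (M s t) e) := by
  rw [inc_dg]
  cases e
  · have h1 := ra_base ({s, t} : Set B) (ff M s t) (hMM M h) (hff M hst) (j := s) (Or.inl rfl) g
    rw [ff_s M hst] at h1
    exact h1
  · have h1 := ra_base ({s, t} : Set B) (ff M s t) (hMM M h) (hff M hst) (j := t) (Or.inr rfl) g
    rw [ff_t] at h1
    exact h1

private theorem aa_inc {s t : B} (hst : s ≠ t) (h : M s t ≠ 0) (d : DA (M s t)) :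
    ∀ g : DA (M s t), (aa M hst h (inc M s t h d)).unop (bpt M ({s, t} : Set B), g) =
      (bpt M ({s, t} : Set B), g * d) := by
  induction d using da_induction with
  | h1 =>
    intro g
    rw [map_one, map_one, mul_one]
    rfl
  | h2 x e ih =>
    intro g
    rw [map_mul (inc M s t h), aa_mul, ih, aa_letter, mul_assoc]
  | h3 x e ih =>
    intro g
    rw [map_mul (inc M s t h), aa_mul, ih]
    have h1 := aa_letter M hst h e (g * (x * (dg (M s t) e)⁻¹))
    rw [mul_assoc, inv_mul_cancel_right] at h1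
    rw [← h1, ← aa_mul, map_inv (inc M s t h), mul_inv_cancel, map_one]
    rfl

theorem inc_injective {s t : B} (hst : s ≠ t) (h : M s t ≠ 0) : Function.Injective (inc M s t h) := by
  intro x y hxy
  have h1 := aa_inc M hst h x 1
  have h2 := aa_inc M hst h y 1
  rw [hxy, h2, one_mul, one_mul] at h1
  exact ((Prod.ext_iff.1 h1).2).symm

theorem inc_mem_lcs {s t : B} (hst : s ≠ t) (h : M s t ≠ 0) (c : ℕ) (x : DA (M s t)) :
    inc M s t h x ∈ (pureA M).lowerCentralSeries c ↔ x ∈ (PD (M s t)).lowerCentralSeries c := by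
  constructor
  · intro hx
    rw [← Subgroup.top_subtype_lowerCentralSeries] at hx
    obtain ⟨y, hy, hyx⟩ := hx
    have hyx' : (y : Art M) = inc M s t h x := hyx
    let r := rho ({s, t} : Set B) (ff M s t) (hMM M h) (hff M hst) (kq M s t h) (kq_ff M hst h)
      (kq_par M s t h)
    have h1 : r y = x := by
      show ((aa M hst h y.1).unop (bpt M ({s, t} : Set B), 1)).2 = x
      rw [hyx', aa_inc]
      exact one_mul x
    have h2 : (⊤ : Subgroup (pureA M)).map r ≤ PD (M s t) := by
      rintro _ ⟨z, _, rfl⟩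
      rw [← inc_mem_pureA M hst h]
      exact kappa_rho ({s, t} : Set B) (ff M s t) (hMM M h) (hff M hst) (kq M s t h) (kq_ff M hst h)
        (kq_par M s t h) z
    have h3 := Subgroup.mem_map_of_mem r hy
    rw [Subgroup.map_lowerCentralSeries, h1] at h3
    exact lcs_mono h2 c h3
  · intro hx
    have h1 := Subgroup.mem_map_of_mem (inc M s t h) hx
    rw [Subgroup.map_lowerCentralSeries] at h1
    refine lcs_mono ?_ c h1
    rintro _ ⟨z, hz, rfl⟩
    exact (inc_mem_pureA M hst h z).2 hz

theorem lcs_inf {s t : B} (hst : s ≠ t) (h : M s t ≠ 0) (c : ℕ) :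
    (pureA M).lowerCentralSeries c ⊓ Subgroup.closure {gen M s, gen M t} =
      ((PD (M s t)).lowerCentralSeries c).map (inc M s t h) := by
  rw [← inc_range M s t h]
  ext y
  constructor
  · rintro ⟨h1, x, rfl⟩
    exact ⟨x, (inc_mem_lcs M hst h c x).1 h1, rfl⟩
  · rintro ⟨x, h1, rfl⟩
    exact ⟨(inc_mem_lcs M hst h c x).2 h1, x, rfl⟩

theorem free_inf {s t : B} (hst : s ≠ t) (h : M s t ≠ 0) (c : ℕ) :
    IsFreeGroup ↥((pureA M).lowerCentralSeries (c + 1) ⊓ Subgroup.closure {gen M s, gen M t}) := by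
  rw [lcs_inf M hst h]
  have := free_lcs (m := M s t) (by omega) c
  exact IsFreeGroup.ofMulEquiv (Subgroup.equivMapOfInjective _ _ (inc_injective M hst h))

end Pool.Agent.H52.PAG
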