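import Pool.Agent.H52.PAG.Deo

/-!
# [H52 PAG RED] words without repetitions in the left inversion sequence are reduced; alternating words

`red_of_nodup`: let `ω'` be a reduced sublist of `ω` with the same product (`deletion`).  Every `t ∈ leftInvSeq ω` is a reflection
(`cs.isReflection_of_mem_leftInvSeq`) with count `1` in `leftInvSeq ω`, so by `count_parity` (classical decidability) its count in `leftInvSeq ω'` is odd,
so `t ∈ leftInvSeq ω'`.  So `ω.length ≤ ω'.length` (`List.Nodup` and subset: `List.Subperm`, `length_leftInvSeq`) and the sublist is everything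
(`List.Sublist.eq_of_length_le`).
`lis_altw`: induction for all `i j`: `leftInvSeq (i :: ω) = s_i :: map (MulAut.conj s_i) (leftInvSeq ω)`, and
`s_i * ((s_j * s_i)^k * s_j) * s_i⁻¹ = (s_i * s_j)^(k+1) * s_i`.
`nodup_altw`: if `k < l < M i j` have the same value, then `(s_i s_j)^(l-k) = 1`, contradicting `pow_ne_one`.
`prod_altw`: with `alt_map_prod`, both sides are alternating products; `alt_eq_pow` (for `x = s_i`, `y = s_j`) and `simple_mul_simple_pow`.
-/

namespace Pool.Agent.H52.PAG

open CoxeterSystem Pool.H8.CDW

variable {B W : Type*} [Group W] {M : CoxeterMatrix B}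

theorem red_of_nodup (cs : CoxeterSystem M W) {ω : List B} (h : (cs.leftInvSeq ω).Nodup) : cs.IsReduced ω := by
  classical
  obtain ⟨ω', h1, h2, h3⟩ := deletion cs ω
  have h4 : cs.leftInvSeq ω ⊆ cs.leftInvSeq ω' := by
    intro t ht
    have h5 := cs.isReflection_of_mem_leftInvSeq ω ht
    have h6 := count_parity cs h3 h5
    have h7 : (cs.leftInvSeq ω).count t = 1 := List.count_eq_one_of_mem h ht
    rw [h7] at h6
    by_contra hcon
    rw [List.count_eq_zero_of_not_mem hcon] at h6
    exact absurd h6 (by norm_num)
  have h5 : (cs.leftInvSeq ω).length ≤ (cs.leftInvSeq ω').length :=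
    (List.subperm_of_subset h h4).length_le
  rw [cs.length_leftInvSeq, cs.length_leftInvSeq] at h5
  have h6 := h1.eq_of_length_le h5
  rw [← h6]
  exact h2

/-- the alternating word `i j i ⋯` of length `n` -/
def altw : B → B → ℕ → List B
  | _, _, 0 => []
  | i, j, n + 1 => i :: altw j i n

theorem alt_map_prod {N : Type*} [Monoid N] (f : B → N) (i j : B) (n : ℕ) :
    ((altw i j n).map f).prod = alt (f i) (f j) n := by
  induction n generalizing i j with
  | zero => rfl
  | succ n ih => rw [altw, alt, List.map_cons, List.prod_cons, ih]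

theorem lis_altw (cs : CoxeterSystem M W) (i j : B) (n : ℕ) :
    cs.leftInvSeq (altw i j n) = (List.range n).map fun k => (cs.simple i * cs.simple j) ^ k * cs.simple i := by
  induction n generalizing i j with
  | zero => rfl
  | succ n ih =>
    rw [altw, leftInvSeq, ih j i, List.range_succ_eq_map, List.map_cons, List.map_map, List.map_map]
    congr 1
    · rw [pow_zero, one_mul]
    · refine List.map_congr_left fun k _ => ?_
      show MulAut.conj (cs.simple i) ((cs.simple j * cs.simple i) ^ k * cs.simple j) =
        (cs.simple i * cs.simple j) ^ (k + 1) * cs.simple i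
      rw [MulAut.conj_apply, cs.inv_simple, ← mul_assoc, ← mul_pow_mul, pow_succ]
      simp only [mul_assoc]

theorem nodup_altw (cs : CoxeterSystem M W) {i j : B} (hij : i ≠ j) :
    (cs.leftInvSeq (altw i j (M i j))).Nodup := by
  rw [lis_altw]
  refine List.Nodup.map_on ?_ List.nodup_range
  have key : ∀ k l : ℕ, k < l → l < M i j →
      (cs.simple i * cs.simple j) ^ k * cs.simple i ≠ (cs.simple i * cs.simple j) ^ l * cs.simple i := by
    intro k l hkl hl h
    have h1 := mul_right_cancel h
    obtain ⟨d, rfl⟩ : ∃ d, l = k + d := ⟨l - k, by omega⟩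
    rw [pow_add] at h1
    have h2 : (cs.simple i * cs.simple j) ^ d = 1 := by
      have h3 : (cs.simple i * cs.simple j) ^ k * 1 =
          (cs.simple i * cs.simple j) ^ k * (cs.simple i * cs.simple j) ^ d := by
        rw [mul_one]
        exact h1
      exact (mul_left_cancel h3).symm
    exact pow_ne_one cs hij (by omega) (by omega) h2
  intro k hk l hl h
  rw [List.mem_range] at hk hl
  rcases lt_trichotomy k l with h1 | h1 | h1
  · exact absurd h (key k l h1 hl)
  · exact h1
  · exact absurd h.symm (key l k h1 hk)

theorem prod_altw (cs : CoxeterSystem M W) (i j : B) :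
    cs.wordProd (altw i j (M i j)) = cs.wordProd (altw j i (M i j)) := by
  unfold wordProd
  rw [alt_map_prod, alt_map_prod,
    alt_eq_pow (cs.simple_mul_simple_self i) (cs.simple_mul_simple_self j),
    cs.simple_mul_simple_pow, one_mul]

end Pool.Agent.H52.PAG
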