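import Pool.Agent.H52.PAG.Seg

/-!
# [H52 PAG ACT] an action of the dihedral Artin group on `ℤ/2m × G`

`par v` is the parity of `v : ZMod (2 m)`.  Letter `e` at `(v, g)`: if `par v = e` go up to `(v + 1, g)`, otherwise down to
`(v - 1, g * φ (v - 1))`.  The inverse map: `(v, g) ↦ (v + 1, g * (φ v)⁻¹)` if `par v = e`, `(v - 1, g)` otherwise
(`par (v ± 1) = !par v`).  `dpr φ v n = φ (v-1) * φ (v-2) * ⋯ * φ (v-n)`.
The right action is a homomorphism to the opposite of the group of permutations.  Relation: for `e = par v` the word `e, !e, e, ⋯` of length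
`m` (`alt (x e) (x !e) m`) goes from `(v, g)` to `(v + m, g)`, and the word `!e, e, ⋯` to `(v - m, g * dpr φ v m)` (both by induction on the
length, for all `v`, `g`), and `v + m = v - m`, `dpr φ v m = 1`.  In `(Perm P)ᵐᵒᵖ`: `alt x y (n+1) = x * alt y x n`, and
`(x * y).unop p = y.unop (x.unop p)`.
-/

namespace Pool.Agent.H52.PAG

open MulOpposite

/-- the parity of an element of `ZMod (2 m)` -/
def par {m : ℕ} (v : ZMod (2 * m)) : Bool := decide (ZMod.castHom (Dvd.intro m rfl) (ZMod 2) v = 1)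

theorem par_natCast (m k : ℕ) : par (k : ZMod (2 * m)) = decide (Odd k) := by
  unfold par
  rw [map_natCast]
  exact decide_eq_decide.2 (ZMod.natCast_eq_one_iff_odd)

theorem par_add_one {m : ℕ} (v : ZMod (2 * m)) : par (v + 1) = !par v := by
  unfold par
  rw [map_add, map_one]
  generalize (ZMod.castHom (Dvd.intro m rfl) (ZMod 2)) v = a
  revert a
  decide

theorem par_sub_one {m : ℕ} (v : ZMod (2 * m)) : par (v - 1) = !par v := by
  unfold par
  rw [map_sub, map_one]
  generalize (ZMod.castHom (Dvd.intro m rfl) (ZMod 2)) v = a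
  revert a
  decide

private theorem not_eq {a e : Bool} (h : a ≠ e) : (!a) = e := by
  revert a e
  decide

private theorem not_ne {a e : Bool} (h : a = e) : (!a) ≠ e := by
  revert a e
  decide

section

variable {m : ℕ} {G : Type*} [Group G] (φ : ZMod (2 * m) → G)

/-- `φ (v-1) * φ (v-2) * ⋯ * φ (v-n)` -/
def dpr (v : ZMod (2 * m)) : ℕ → G
  | 0 => 1
  | n + 1 => φ (v - 1) * dpr (v - 1) n

/-- the action of a letter -/
def stp (e : Bool) : Equiv.Perm (ZMod (2 * m) × G) where
  toFun x := if par x.1 = e then (x.1 + 1, x.2) else (x.1 - 1, x.2 * φ (x.1 - 1))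
  invFun x := if par x.1 = e then (x.1 + 1, x.2 * (φ x.1)⁻¹) else (x.1 - 1, x.2)
  left_inv := by
    rintro ⟨v, g⟩
    by_cases h : par v = e
    · simp only [if_pos h, par_add_one, if_neg (not_ne h), add_sub_cancel_right]
    · simp only [if_neg h, par_sub_one, if_pos (not_eq h), sub_add_cancel, mul_inv_cancel_right]
  right_inv := by
    rintro ⟨v, g⟩
    by_cases h : par v = e
    · simp only [if_pos h, par_add_one, if_neg (not_ne h), add_sub_cancel_right,
        inv_mul_cancel_right]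
    · simp only [if_neg h, par_sub_one, if_pos (not_eq h), sub_add_cancel]

theorem stp_apply (e : Bool) (v : ZMod (2 * m)) (g : G) :
    stp φ e (v, g) = if par v = e then (v + 1, g) else (v - 1, g * φ (v - 1)) := rfl

private theorem stp_up {e : Bool} {v : ZMod (2 * m)} (h : par v = e) (g : G) :
    stp φ e (v, g) = (v + 1, g) := by
  rw [stp_apply, if_pos h]

private theorem stp_down {e : Bool} {v : ZMod (2 * m)} (h : par v ≠ e) (g : G) :
    stp φ e (v, g) = (v - 1, g * φ (v - 1)) := by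
  rw [stp_apply, if_neg h]

private theorem alt_up (n : ℕ) : ∀ (e : Bool) (v : ZMod (2 * m)) (g : G), par v = e →
    (alt (op (stp φ e)) (op (stp φ (!e))) n).unop (v, g) = (v + n, g) := by
  induction n with
  | zero =>
    intro e v g _
    simp [alt]
  | succ n ih =>
    intro e v g h
    have h1 : par (v + 1) = !e := by rw [par_add_one, h]
    have h2 := ih (!e) (v + 1) g h1
    rw [Bool.not_not] at h2
    rw [alt, unop_mul, Equiv.Perm.mul_apply, unop_op, stp_up φ h, h2]
    push_cast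
    rw [add_assoc, add_comm 1 (n : ZMod (2 * m))]

private theorem alt_down (n : ℕ) : ∀ (e : Bool) (v : ZMod (2 * m)) (g : G), par v ≠ e →
    (alt (op (stp φ e)) (op (stp φ (!e))) n).unop (v, g) = (v - n, g * dpr φ v n) := by
  induction n with
  | zero =>
    intro e v g _
    simp [alt, dpr]
  | succ n ih =>
    intro e v g h
    have h1 : par (v - 1) ≠ !e := by
      rw [par_sub_one]
      intro h3
      exact h (Bool.not_inj h3)
    have h2 := ih (!e) (v - 1) (g * φ (v - 1)) h1
    rw [Bool.not_not] at h2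
    rw [alt, unop_mul, Equiv.Perm.mul_apply, unop_op, stp_down φ h, h2, dpr, mul_assoc]
    push_cast
    rw [sub_sub, add_comm 1 (n : ZMod (2 * m))]

private theorem add_m (v : ZMod (2 * m)) : v - (m : ZMod (2 * m)) = v + m := by
  have h1 : ((2 * m : ℕ) : ZMod (2 * m)) = 0 := ZMod.natCast_self _
  push_cast at h1
  linear_combination -h1

private theorem alt_eq (hφ : ∀ v, dpr φ v m = 1) (e : Bool) (v : ZMod (2 * m)) (g : G)
    (h : par v = e) : (alt (op (stp φ e)) (op (stp φ (!e))) m).unop (v, g) =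
      (alt (op (stp φ (!e))) (op (stp φ e)) m).unop (v, g) := by
  have h1 : par v ≠ !e := by
    rw [h]
    exact fun h2 => Bool.not_ne_self e h2.symm
  have h2 := alt_down φ m (!e) v g h1
  rw [Bool.not_not] at h2
  rw [alt_up φ m e v g h, h2, hφ, mul_one, add_m]

theorem stp_rel (hφ : ∀ v, dpr φ v m = 1) :
    alt (op (stp φ false)) (op (stp φ true)) m = alt (op (stp φ true)) (op (stp φ false)) m := by
  apply unop_injective
  refine Equiv.ext ?_
  rintro ⟨v, g⟩
  rcases hv : par v with _ | _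
  · exact alt_eq φ hφ false v g hv
  · exact (alt_eq φ hφ true v g hv).symm

/-- the right action of the dihedral Artin group on `ℤ/2m × G` -/
def ract (hφ : ∀ v, dpr φ v m = 1) : DA m →* (Equiv.Perm (ZMod (2 * m) × G))ᵐᵒᵖ :=
  dlift (fun e => op (stp φ e)) (stp_rel φ hφ)

theorem ract_dg (hφ : ∀ v, dpr φ v m = 1) (e : Bool) (v : ZMod (2 * m)) (g : G) :
    (ract φ hφ (dg m e)).unop (v, g) = if par v = e then (v + 1, g) else (v - 1, g * φ (v - 1)) := by
  unfold ract
  rw [dlift_dg, unop_op, stp_apply]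

theorem ract_mul (hφ : ∀ v, dpr φ v m = 1) (x y : DA m) (p : ZMod (2 * m) × G) :
    (ract φ hφ (x * y)).unop p = (ract φ hφ y).unop ((ract φ hφ x).unop p) := by
  rw [map_mul, unop_mul, Equiv.Perm.mul_apply]

private theorem left_inv' {f : Equiv.Perm (ZMod (2 * m) × G)}
    (hf : ∀ (v : ZMod (2 * m)) (h g : G), f (v, h * g) = ((f (v, g)).1, h * (f (v, g)).2))
    (v : ZMod (2 * m)) (h g : G) : f⁻¹ (v, h * g) = ((f⁻¹ (v, g)).1, h * (f⁻¹ (v, g)).2) := by
  obtain ⟨w, k, hw⟩ : ∃ w k, f⁻¹ (v, g) = (w, k) := ⟨_, _, rfl⟩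
  have h1 : f (w, k) = (v, g) := by rw [← hw]; exact f.apply_symm_apply _
  rw [hw, Equiv.Perm.inv_eq_iff_eq, hf, h1]

/-- the action commutes with left multiplication -/
theorem ract_left (hφ : ∀ v, dpr φ v m = 1) (x : DA m) (v : ZMod (2 * m)) (h g : G) :
    (ract φ hφ x).unop (v, h * g) =
      (((ract φ hφ x).unop (v, g)).1, h * ((ract φ hφ x).unop (v, g)).2) := by
  have hgen : ∀ (e : Bool) (v : ZMod (2 * m)) (h g : G), (ract φ hφ (dg m e)).unop (v, h * g) =
      (((ract φ hφ (dg m e)).unop (v, g)).1, h * ((ract φ hφ (dg m e)).unop (v, g)).2) := by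
    intro e v h g
    rw [ract_dg, ract_dg]
    split_ifs
    · rfl
    · rw [mul_assoc]
  induction x using da_induction with
  | h1 => rw [map_one]; rfl
  | h2 x e ih => rw [ract_mul, ract_mul, ih, hgen]
  | h3 x e ih =>
    rw [ract_mul, ract_mul, ih, map_inv, unop_inv]
    exact left_inv' (hgen e) _ _ _

private theorem ract_zpow (hφ : ∀ v, dpr φ v m = 1) (e : Bool) (n : ℤ) :
    (ract φ hφ (dg m e ^ n)).unop = (stp φ e) ^ n := by
  unfold ract
  rw [map_zpow, dlift_dg, unop_zpow, unop_op]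

private theorem zpow_two {f : Equiv.Perm (ZMod (2 * m) × G)} {v : ZMod (2 * m)} {t : G}
    (hf : ∀ g, f (f (v, g)) = (v, g * t)) (q : ℤ) : ∀ g, (f ^ (2 * q)) (v, g) = (v, g * t ^ q) := by
  have h2 : ∀ g, (f ^ (2 : ℤ)) (v, g) = (v, g * t) := fun g => hf g
  have h2' : ∀ g, ((f ^ (2 : ℤ))⁻¹) (v, g) = (v, g * t⁻¹) := by
    intro g
    rw [Equiv.Perm.inv_eq_iff_eq, h2, inv_mul_cancel_right]
  rw [zpow_mul]
  induction q with
  | zero => intro g; simp
  | succ n ih =>
    intro g
    rw [zpow_add_one, Equiv.Perm.mul_apply, h2, ih, zpow_add_one, mul_assoc,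
      (Commute.self_zpow t (n : ℤ)).eq]
  | pred n ih =>
    intro g
    rw [zpow_sub_one, Equiv.Perm.mul_apply, h2', ih, zpow_sub_one, mul_assoc,
      ((Commute.self_zpow t (-(n : ℤ))).inv_left).eq]

/-- powers of the letter which goes up -/
theorem ract_pow_up (hφ : ∀ v, dpr φ v m = 1) (e : Bool) (v : ZMod (2 * m)) (h : par v = e) (q : ℤ) (g : G) :
    (ract φ hφ (dg m e ^ (2 * q))).unop (v, g) = (v, g * φ v ^ q) ∧
      (ract φ hφ (dg m e ^ (2 * q + 1))).unop (v, g) = (v + 1, g * φ v ^ q) := by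
  have h1 : par (v + 1) ≠ e := by
    rw [par_add_one]
    exact not_ne h
  have h2 : ∀ g, stp φ e (stp φ e (v, g)) = (v, g * φ v) := by
    intro g
    rw [stp_up φ h, stp_down φ h1, add_sub_cancel_right]
  have h3 := zpow_two h2 q g
  rw [ract_zpow, ract_zpow]
  refine ⟨h3, ?_⟩
  rw [add_comm (2 * q) 1, zpow_add, zpow_one, Equiv.Perm.mul_apply, h3, stp_up φ h]

/-- powers of the letter which goes down -/
theorem ract_pow_down (hφ : ∀ v, dpr φ v m = 1) (e : Bool) (v : ZMod (2 * m)) (h : par v ≠ e) (q : ℤ) (g : G) :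
    (ract φ hφ (dg m e ^ (2 * q))).unop (v, g) = (v, g * φ (v - 1) ^ q) ∧
      (ract φ hφ (dg m e ^ (2 * q + 1))).unop (v, g) = (v - 1, g * φ (v - 1) ^ (q + 1)) := by
  have h1 : par (v - 1) = e := by
    rw [par_sub_one]
    exact not_eq h
  have h2 : ∀ g, stp φ e (stp φ e (v, g)) = (v, g * φ (v - 1)) := by
    intro g
    rw [stp_down φ h, stp_up φ h1, sub_add_cancel]
  have h3 := zpow_two h2 q g
  rw [ract_zpow, ract_zpow]
  refine ⟨h3, ?_⟩
  rw [add_comm (2 * q) 1, zpow_add, zpow_one, Equiv.Perm.mul_apply, h3, stp_down φ h, mul_assoc,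
    ← zpow_add_one]

/-- a power of a letter moves along one edge -/
theorem ract_pow (hφ : ∀ v, dpr φ v m = 1) (e : Bool) (p : ℤ) (v : ZMod (2 * m)) :
    ∃ (v' j : ZMod (2 * m)) (q : ℤ), ∀ g, (ract φ hφ (dg m e ^ p)).unop (v, g) = (v', g * φ j ^ q) := by
  obtain ⟨q, rfl | rfl⟩ := Int.even_or_odd' p
  · by_cases h : par v = e
    · exact ⟨v, v, q, fun g => (ract_pow_up φ hφ e v h q g).1⟩
    · exact ⟨v, v - 1, q, fun g => (ract_pow_down φ hφ e v h q g).1⟩
  · by_cases h : par v = e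
    · exact ⟨v + 1, v, q, fun g => (ract_pow_up φ hφ e v h q g).2⟩
    · exact ⟨v - 1, v - 1, q + 1, fun g => (ract_pow_down φ hφ e v h q g).2⟩

/-- words of powers of letters -/
theorem ract_word (hφ : ∀ v, dpr φ v m = 1) (l : List (Bool × ℤ)) (v : ZMod (2 * m)) :
    ∃ (v' : ZMod (2 * m)) (l' : List (ZMod (2 * m) × ℤ)), l'.length = l.length ∧
      ∀ g, (ract φ hφ (l.map fun x => dg m x.1 ^ x.2).prod).unop (v, g) =
        (v', g * (l'.map fun x => φ x.1 ^ x.2).prod) := by
  induction l generalizing v with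
  | nil =>
    refine ⟨v, [], rfl, fun g => ?_⟩
    simp
  | cons x l ih =>
    obtain ⟨v1, j, q, h1⟩ := ract_pow φ hφ x.1 x.2 v
    obtain ⟨v', l', hl, h2⟩ := ih v1
    refine ⟨v', (j, q) :: l', by simp [hl], fun g => ?_⟩
    rw [List.map_cons, List.prod_cons, ract_mul, h1, h2, List.map_cons, List.prod_cons, mul_assoc]

end

end Pool.Agent.H52.PAG
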