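import Mathlib

/-!
# Artin groups: definitions

`alt x y n = x y x y ⋯` (`n` factors).  `Art M` is the Artin group of a Coxeter matrix `M` (`M i j = 0` means no relation),
`gen M i` its generators, `toCox M : Art M → M.Group` the canonical homomorphism, `pureA M` its kernel.
`DA m` is the Artin group with two generators `da m`, `db m` and the relation `alt a b m = alt b a m`; `cc m k` is `a` for even
`k` and `b` for odd `k`; `seg m k n = cc k * cc (k+1) * ⋯ * cc (k+n-1)`.
-/

namespace Pool.Agent.H52.PAG

/-- `x y x ⋯` (`n` factors) -/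
def alt {G : Type*} [Monoid G] : G → G → ℕ → G
  | _, _, 0 => 1
  | x, y, n + 1 => x * alt y x n

section Art

variable {B : Type*} (M : CoxeterMatrix B)

/-- the braid relations -/
def braidRel : Set (FreeGroup B) :=
  {w | ∃ i j, M i j ≠ 0 ∧
    w = alt (FreeGroup.of i) (FreeGroup.of j) (M i j) * (alt (FreeGroup.of j) (FreeGroup.of i) (M i j))⁻¹}

/-- the Artin group -/
def Art : Type _ := PresentedGroup (braidRel M)

instance : Group (Art M) := (inferInstance : Group (PresentedGroup (braidRel M)))

/-- the generators -/
def gen (i : B) : Art M := PresentedGroup.of i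

variable {M}

theorem map_alt {G H : Type*} [Monoid G] [Monoid H] (f : G →* H) (x y : G) (n : ℕ) :
    f (alt x y n) = alt (f x) (f y) n := by
  induction n generalizing x y with
  | zero => exact map_one f
  | succ n ih => simp only [alt, map_mul, ih]

theorem gen_rel {i j : B} (h : M i j ≠ 0) :
    alt (gen M i) (gen M j) (M i j) = alt (gen M j) (gen M i) (M i j) := by
  have h1 : PresentedGroup.mk (braidRel M) (alt (FreeGroup.of i) (FreeGroup.of j) (M i j) *
      (alt (FreeGroup.of j) (FreeGroup.of i) (M i j))⁻¹) = 1 :=
    (QuotientGroup.eq_one_iff _).2 (Subgroup.subset_normalClosure ⟨i, j, h, rfl⟩)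
  rw [map_mul, map_inv, map_alt, map_alt, mul_inv_eq_one] at h1
  exact h1

/-- homomorphisms from the Artin group -/
def lift {G : Type*} [Group G] (f : B → G)
    (hf : ∀ i j, M i j ≠ 0 → alt (f i) (f j) (M i j) = alt (f j) (f i) (M i j)) : Art M →* G :=
  PresentedGroup.toGroup (f := f) (by
    rintro _ ⟨i, j, h, rfl⟩
    rw [map_mul, map_inv, map_alt, map_alt, FreeGroup.lift_apply_of, FreeGroup.lift_apply_of, hf i j h,
      mul_inv_cancel])

theorem lift_gen {G : Type*} [Group G] (f : B → G)
    (hf : ∀ i j, M i j ≠ 0 → alt (f i) (f j) (M i j) = alt (f j) (f i) (M i j)) (i : B) :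
    lift f hf (gen M i) = f i :=
  PresentedGroup.toGroup.of _

theorem art_closure (M : CoxeterMatrix B) : Subgroup.closure (Set.range (gen M)) = ⊤ :=
  PresentedGroup.closure_range_of _

theorem art_ext {G : Type*} [Group G] {f g : Art M →* G} (h : ∀ i, f (gen M i) = g (gen M i)) : f = g := by
  exact PresentedGroup.ext (rels := braidRel M) (φ := f) (ψ := g) h

/-- a property of the elements which is stable under right multiplication by generators and their inverses -/
theorem art_induction {P : Art M → Prop} (h1 : P 1) (h2 : ∀ x i, P x → P (x * gen M i))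
    (h3 : ∀ x i, P x → P (x * (gen M i)⁻¹)) (x : Art M) : P x := by
  have hx : x ∈ Subgroup.closure (Set.range (gen M)) := by
    rw [art_closure]
    exact Subgroup.mem_top x
  refine Subgroup.closure_induction_right (p := fun x _ => P x) h1 ?_ ?_ hx
  · rintro y _ z ⟨i, rfl⟩ hy
    exact h2 y i hy
  · rintro y _ z ⟨i, rfl⟩ hy
    exact h3 y i hy

theorem alt_eq_pow {G : Type*} [Group G] {x y : G} (hx : x * x = 1) (hy : y * y = 1) (n : ℕ) :
    alt x y n = (x * y) ^ n * alt y x n := by
  induction n generalizing x y with
  | zero => simp [alt]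
  | succ n ih =>
    have h1 : (x * y) ^ n * x = x * (y * x) ^ n := mul_pow_mul x y n
    simp only [alt]
    rw [ih hy hx, pow_succ, ← mul_assoc, ← h1]
    simp only [mul_assoc]
    rw [← mul_assoc y y, hy, one_mul]

variable (M) in
/-- the homomorphism to the Coxeter group -/
def toCox : Art M →* M.Group :=
  lift M.simple fun i j _ => by
    have h1 := M.toCoxeterSystem.simple_mul_simple_self i
    have h2 := M.toCoxeterSystem.simple_mul_simple_self j
    have h3 := M.toCoxeterSystem.simple_mul_simple_pow i j
    rw [CoxeterMatrix.toCoxeterSystem_simple] at h1 h2 h3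
    rw [alt_eq_pow h1 h2, h3, one_mul]

theorem toCox_gen (i : B) : toCox M (gen M i) = M.simple i := lift_gen _ _ i

variable (M) in
/-- the pure Artin group -/
def pureA : Subgroup (Art M) := (toCox M).ker

end Art

section Dihedral

variable (m : ℕ)

/-- the relation of the dihedral Artin group -/
def dihRel : Set (FreeGroup Bool) :=
  {alt (FreeGroup.of false) (FreeGroup.of true) m * (alt (FreeGroup.of true) (FreeGroup.of false) m)⁻¹}

/-- the Artin group with generators `a`, `b` and the relation `a b a ⋯ = b a b ⋯` (`m` factors) -/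
def DA : Type := PresentedGroup (dihRel m)

instance : Group (DA m) := (inferInstance : Group (PresentedGroup (dihRel m)))

/-- the generators: `a` for `false`, `b` for `true` -/
def dg (e : Bool) : DA m := PresentedGroup.of e

variable {m}

theorem dg_rel : alt (dg m false) (dg m true) m = alt (dg m true) (dg m false) m := by
  have h1 : PresentedGroup.mk (dihRel m) (alt (FreeGroup.of false) (FreeGroup.of true) m *
      (alt (FreeGroup.of true) (FreeGroup.of false) m)⁻¹) = 1 :=
    (QuotientGroup.eq_one_iff _).2 (Subgroup.subset_normalClosure rfl)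
  rw [map_mul, map_inv, map_alt, map_alt, mul_inv_eq_one] at h1
  exact h1

/-- homomorphisms from the dihedral Artin group -/
def dlift {G : Type*} [Group G] (f : Bool → G)
    (hf : alt (f false) (f true) m = alt (f true) (f false) m) : DA m →* G :=
  PresentedGroup.toGroup (f := f) (by
    rintro _ rfl
    rw [map_mul, map_inv, map_alt, map_alt, FreeGroup.lift_apply_of, FreeGroup.lift_apply_of, hf,
      mul_inv_cancel])

theorem dlift_dg {G : Type*} [Group G] (f : Bool → G)
    (hf : alt (f false) (f true) m = alt (f true) (f false) m) (e : Bool) :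
    dlift f hf (dg m e) = f e :=
  PresentedGroup.toGroup.of _

theorem da_closure (m : ℕ) : Subgroup.closure (Set.range (dg m)) = ⊤ :=
  PresentedGroup.closure_range_of _

theorem da_ext {G : Type*} [Group G] {f g : DA m →* G} (h : ∀ i, f (dg m i) = g (dg m i)) : f = g := by
  exact PresentedGroup.ext (rels := dihRel m) (φ := f) (ψ := g) h

theorem da_induction {P : DA m → Prop} (h1 : P 1) (h2 : ∀ x i, P x → P (x * dg m i))
    (h3 : ∀ x i, P x → P (x * (dg m i)⁻¹)) (x : DA m) : P x := by
  have hx : x ∈ Subgroup.closure (Set.range (dg m)) := by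
    rw [da_closure]
    exact Subgroup.mem_top x
  refine Subgroup.closure_induction_right (p := fun x _ => P x) h1 ?_ ?_ hx
  · rintro y _ z ⟨i, rfl⟩ hy
    exact h2 y i hy
  · rintro y _ z ⟨i, rfl⟩ hy
    exact h3 y i hy

variable (m) in
/-- `a` for even `k`, `b` for odd `k` -/
def cc (k : ℕ) : DA m := dg m (decide (Odd k))

variable (m) in
/-- `cc k * cc (k+1) * ⋯ * cc (k+n-1)` -/
def seg : ℕ → ℕ → DA m
  | _, 0 => 1
  | k, n + 1 => cc m k * seg (k + 1) n

variable (m) in
/-- the Garside element -/
def del : DA m := seg m 0 m

end Dihedral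

end Pool.Agent.H52.PAG
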