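import Pool.Agent.H52.PAG.Defs
import Pool.Agent.H8.CDW.D2

/-!
# [H52 PAG DEO] minimal representatives of `W_J \ W` under right multiplication by a generator

`IsL cs J u`: no left descent of `u` in `J`; equivalent to `IsMin cs J u⁻¹` (`isRightDescent_inv_iff`).
`deodhar`: suppose `j ∈ J` is a left descent of `u * s_r`.  `ℓ(s_j u) = ℓ(u) + 1`.  If `ℓ(u s_r) < ℓ(u)`, then `ℓ(s_j u) ≤ ℓ(s_j u s_r) + 1 < ℓ(u s_r) + 1 ≤ ℓ(u)`,
a contradiction; so for a reduced word `ω` of `u` the word `ω ++ [r]` is reduced.  `exchange_left` deletes the letter number `k` of it: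
`k = ω.length` gives `s_j u s_r = u`; otherwise `s_j u s_r = π (ω.eraseIdx k) s_r`, so `ℓ(s_j u) < ℓ(u)`, a contradiction.
`not_isL`: if `u * s_r = s_j * u`, `j ∈ J`, then `ℓ(s_j * (u s_r)) = ℓ(u) < ℓ(s_j u) = ℓ(u s_r)`.
`injOn_of`: `pow_ne_one` with `k = 1` and `M.off_diagonal`.
`isL_unique`: `isMin_unique` for the inverses.
-/

namespace Pool.Agent.H52.PAG

open CoxeterSystem Pool.H8.CDW

variable {B W : Type*} [Group W] {M : CoxeterMatrix B}

/-- `u` has no left descent in `J` -/
def IsL (cs : CoxeterSystem M W) (J : Set B) (u : W) : Prop := ∀ j ∈ J, ¬ cs.IsLeftDescent u j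

theorem isL_iff (cs : CoxeterSystem M W) (J : Set B) (u : W) : IsL cs J u ↔ IsMin cs J u⁻¹ := by
  unfold IsL Pool.H8.CDW.IsMin
  simp only [isRightDescent_inv_iff]

theorem isL_one (cs : CoxeterSystem M W) (J : Set B) : IsL cs J 1 := by
  intro j _ h
  unfold CoxeterSystem.IsLeftDescent at h
  rw [cs.length_one] at h
  exact absurd h (Nat.not_lt_zero _)

theorem deodhar (cs : CoxeterSystem M W) {J : Set B} {u : W} (hu : IsL cs J u) {r : B}
    (h : ¬ IsL cs J (u * cs.simple r)) : ∃ j ∈ J, u * cs.simple r = cs.simple j * u := by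
  unfold IsL at h
  push Not at h
  obtain ⟨j, hj, hd⟩ := h
  refine ⟨j, hj, ?_⟩
  have h1 : cs.length (cs.simple j * u) = cs.length u + 1 := cs.not_isLeftDescent_iff.1 (hu j hj)
  have hd' := cs.isLeftDescent_iff.1 hd
  -- `ℓ (u s_r) = ℓ u + 1`
  have h2 : cs.length (u * cs.simple r) = cs.length u + 1 := by
    rcases cs.length_mul_simple u r with h3 | h3
    · exact h3
    · exfalso
      have h4 : cs.length (cs.simple j * u) ≤ cs.length (cs.simple j * (u * cs.simple r)) + 1 := by
        rcases cs.length_mul_simple (cs.simple j * (u * cs.simple r)) r with h5 | h5 <;>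
          rw [mul_assoc, mul_assoc, simple_mul_simple_self, mul_one] at h5 <;> omega
      omega
  obtain ⟨ω, hω, hωu⟩ := cs.exists_isReduced u
  have hlen : cs.length u = ω.length := by rw [hωu]; exact hω
  have hprod : cs.wordProd (ω ++ [r]) = u * cs.simple r := by
    rw [wordProd_append, wordProd_singleton, ← hωu]
  have hred : cs.IsReduced (ω ++ [r]) := by
    unfold CoxeterSystem.IsReduced
    rw [hprod, h2, hlen, List.length_append, List.length_singleton]
  rw [← hprod] at hd
  obtain ⟨k, hk, he⟩ := exchange_left cs hred hd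
  rw [List.length_append, List.length_singleton] at hk
  rcases Nat.lt_or_ge k ω.length with hk1 | hk1
  · exfalso
    rw [List.eraseIdx_append_of_lt_length hk1, hprod, wordProd_append, wordProd_singleton,
      ← mul_assoc] at he
    have h3 := mul_right_cancel he
    have h4 : cs.length (cs.simple j * u) ≤ (ω.eraseIdx k).length := by
      rw [h3]
      exact cs.length_wordProd_le _
    rw [List.length_eraseIdx_of_lt hk1] at h4
    omega
  · have hk2 : k = ω.length := by omega
    subst hk2
    have h3 : (ω ++ [r]).eraseIdx ω.length = ω := by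
      rw [List.eraseIdx_append_of_length_le le_rfl, Nat.sub_self, List.eraseIdx_cons_zero,
        List.append_nil]
    rw [h3, hprod, ← hωu] at he
    rw [← he, simple_mul_simple_cancel_left]
    rw [he]

theorem not_isL (cs : CoxeterSystem M W) {J : Set B} {u : W} (hu : IsL cs J u) {r j : B} (hj : j ∈ J)
    (h : u * cs.simple r = cs.simple j * u) : ¬ IsL cs J (u * cs.simple r) := by
  intro h1
  have h2 := cs.not_isLeftDescent_iff.1 (h1 j hj)
  have h3 := cs.not_isLeftDescent_iff.1 (hu j hj)
  rw [h, simple_mul_simple_cancel_left] at h2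
  omega

theorem injOn_of (cs : CoxeterSystem M W) {J : Set B} (hJ : ∀ i ∈ J, ∀ j ∈ J, M i j ≠ 0) :
    Set.InjOn cs.simple J := by
  intro i hi j hj h
  by_contra hij
  have h1 : M i j ≠ 1 := M.off_diagonal i j hij
  have h0 := hJ i hi j hj
  refine pow_ne_one cs hij (k := 1) one_pos (by omega) ?_
  rw [pow_one, h, cs.simple_mul_simple_self]

theorem isL_unique (cs : CoxeterSystem M W) {J : Set B} {u u' y y' : W} (hu : IsL cs J u) (hu' : IsL cs J u')
    (hy : y ∈ par cs J) (hy' : y' ∈ par cs J) (h : y * u = y' * u') : u = u' := by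
  rw [isL_iff] at hu hu'
  refine inv_injective (isMin_unique cs hu hu' ?_)
  rw [inv_inv]
  have h1 : u * u'⁻¹ = y⁻¹ * y' := by
    rw [mul_inv_eq_iff_eq_mul, mul_assoc, ← h, inv_mul_cancel_left]
  rw [h1]
  exact mul_mem (inv_mem hy) hy'

end Pool.Agent.H52.PAG
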