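import Pool.Agent.H52.PAG.Phi

/-!
# [H52 PAG KER] the stabiliser of `(0, 1)`

Let `N = Subgroup.zpowers (del m ^ 2)`, normal because `del^2` is central (`del_sq`), `q : DA m → DA m ⧸ N`.  Let `ψ` be the homomorphism from the
free group with `ψ (of j) = q (xx m j)`.  Then `ψ (fph m j) = q (xx m j)` for all `j < m`: for `j = m - 1` use `ψ (gpr m n) = q (xprod m n)` for
`n ≤ m - 1` and `q (xx m (m-1) * xprod m (m-1)) = q (xprod m m) = q (del^2) = 1` (`xprod_eq`).  Hence `ψ (phi m v) = q (xx m v.val)` for all `v`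
(`xx_add`).  Let `Θ (v, g) = ψ g * q (seg m 0 v.val)`.  CLAIM: `Θ ((v,g) · x) = Θ (v, g) * q x` for all `x : DA m`; by `da_induction` (for the
inverse of a letter apply the claim for the letter at the image point) it is enough for letters.  Letter `e` at `v`.
Up (`par v = e`): `dg m e = cc m v.val` (`par_natCast`), `seg 0 v.val * cc v.val = seg 0 (v.val + 1)` (`seg_succ'`), and `q (seg 0 (v.val + 1)) =
q (seg 0 (v+1).val)`: either `(v+1).val = v.val + 1`, or `v.val + 1 = 2 m` and `(v+1).val = 0`, `seg_two_mul`.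
Down: put `u = v - 1`, `dg m e = cc m u.val`; by the previous remark `q (seg 0 v.val) = q (seg 0 (u.val + 1))`, and
`seg 0 (u+1) * cc u = seg 0 u * cc u ^ 2 = xx u * seg 0 u`; `ψ (g * phi u) = ψ g * q (xx u.val)`.
Finally `Θ (0, 1) = 1`, so `(0,1) · x = (0,1)` implies `q x = 1`.
-/

namespace Pool.Agent.H52.PAG

open MulOpposite

private theorem ker_normal (m : ℕ) : (Subgroup.zpowers (del m ^ 2)).Normal := by
  refine ⟨?_⟩
  rintro _ ⟨k, rfl⟩ g
  have h1 : Commute g (del m ^ 2) := del_sq m g
  have h2 : Commute g ((del m ^ 2) ^ k) := h1.zpow_right k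
  refine ⟨k, ?_⟩
  show (del m ^ 2) ^ k = g * (del m ^ 2) ^ k * g⁻¹
  rw [h2.eq, mul_inv_cancel_right]

section

variable {m : ℕ} {Q : Type} [Group Q] (q : DA m →* Q)

/-- the homomorphism of the free group -/
private def psi : FreeGroup (Fin (m - 1)) →* Q := FreeGroup.lift fun j => q (xx m j)

private theorem psi_gpr (n : ℕ) (hn : n ≤ m - 1) : psi q (gpr m n) = q (xprod m n) := by
  induction n with
  | zero => rw [gpr, xprod, map_one, map_one]
  | succ n ih =>
    rw [gpr, xprod, dif_pos (show n < m - 1 by omega), map_mul, map_mul, ih (by omega)]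
    unfold psi
    rw [FreeGroup.lift_apply_of]

private theorem psi_fph (hq : q (del m ^ 2) = 1) (hm : 0 < m) (j : ℕ) (hj : j < m) :
    psi q (fph m j) = q (xx m j) := by
  unfold fph
  split_ifs with h
  · unfold psi
    rw [FreeGroup.lift_apply_of]
  · have h1 : j = m - 1 := by omega
    have h2 : q (xx m (m - 1)) * q (xprod m (m - 1)) = 1 := by
      rw [← map_mul, ← hq, ← xprod_eq]
      have h3 : xprod m ((m - 1) + 1) = xx m (m - 1) * xprod m (m - 1) := rfl
      rw [← h3, Nat.sub_add_cancel hm]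
    rw [map_inv, psi_gpr q (m - 1) le_rfl, h1]
    exact (eq_inv_of_mul_eq_one_left h2).symm

private theorem xx_add_mul (k l : ℕ) : xx m (k + m * l) = xx m k := by
  induction l with
  | zero => rw [mul_zero, add_zero]
  | succ l ih => rw [mul_add, mul_one, ← add_assoc, xx_add, ih]

private theorem psi_phi (hq : q (del m ^ 2) = 1) (hm : 0 < m) (v : ZMod (2 * m)) :
    psi q (phi m v) = q (xx m v.val) := by
  unfold phi
  rw [psi_fph q hq hm _ (Nat.mod_lt _ hm), ← xx_add_mul (v.val % m) (v.val / m), Nat.mod_add_div]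

/-- the invariant -/
private def tht (p : ZMod (2 * m) × FreeGroup (Fin (m - 1))) : Q := psi q p.2 * q (seg m 0 p.1.val)

private theorem q_succ (hq : q (del m ^ 2) = 1) (hm : 0 < m) (v : ZMod (2 * m)) :
    q (seg m 0 (v + 1).val) = q (seg m 0 v.val) * q (cc m v.val) := by
  haveI : NeZero (2 * m) := ⟨by omega⟩
  have h1 : (v + 1).val = (v.val + 1) % (2 * m) := by
    rw [← ZMod.val_natCast, Nat.cast_add, ZMod.natCast_zmod_val, Nat.cast_one]
  have h2 := ZMod.val_lt v
  have h3 : q (seg m 0 v.val) * q (cc m v.val) = q (seg m 0 (v.val + 1)) := by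
    rw [seg_succ', map_mul, zero_add]
  rw [h1, h3]
  rcases Nat.lt_or_ge (v.val + 1) (2 * m) with h4 | h4
  · rw [Nat.mod_eq_of_lt h4]
  · have h5 : v.val + 1 = 2 * m := by omega
    rw [h5, Nat.mod_self, seg_two_mul, hq]
    exact map_one q

private theorem dg_cc (hm : 0 < m) {v : ZMod (2 * m)} {e : Bool} (h : par v = e) :
    dg m e = cc m v.val := by
  haveI : NeZero (2 * m) := ⟨by omega⟩
  unfold cc
  rw [← par_natCast m v.val, ZMod.natCast_zmod_val, h]

private theorem tht_dg (hq : q (del m ^ 2) = 1) (hm : 0 < m) (e : Bool)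
    (p : ZMod (2 * m) × FreeGroup (Fin (m - 1))) :
    tht q ((ract (phi m) (dpr_phi m) (dg m e)).unop p) = tht q p * q (dg m e) := by
  obtain ⟨v, g⟩ := p
  rw [ract_dg]
  split_ifs with h
  · unfold tht
    rw [q_succ q hq hm v, dg_cc hm h, mul_assoc]
  · obtain ⟨u, hu⟩ : ∃ u, u = v - 1 := ⟨_, rfl⟩
    have hv : v = u + 1 := by rw [hu, sub_add_cancel]
    have he : par u = e := by
      rw [hu, par_sub_one]
      revert h
      generalize par v = a
      revert a e
      decide
    rw [← hu]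
    unfold tht
    rw [map_mul, psi_phi q hq hm, hv, q_succ q hq hm u, dg_cc hm he]
    have h1 : xx m u.val * seg m 0 u.val = seg m 0 u.val * (cc m u.val * cc m u.val) := by
      unfold xx
      rw [inv_mul_cancel_right, pow_two]
    have h2 : q (xx m u.val) * q (seg m 0 u.val) = q (seg m 0 u.val) * (q (cc m u.val) * q (cc m u.val)) := by
      rw [← map_mul, h1, map_mul, map_mul]
    simp only [mul_assoc]
    rw [h2]

private theorem tht_all (hq : q (del m ^ 2) = 1) (hm : 0 < m) (x : DA m) :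
    ∀ p : ZMod (2 * m) × FreeGroup (Fin (m - 1)),
      tht q ((ract (phi m) (dpr_phi m) x).unop p) = tht q p * q x := by
  induction x using da_induction with
  | h1 =>
    intro p
    rw [map_one, map_one, mul_one]
    rfl
  | h2 x e ih =>
    intro p
    rw [ract_mul, tht_dg q hq hm, ih, map_mul, mul_assoc]
  | h3 x e ih =>
    intro p
    rw [ract_mul]
    obtain ⟨r, hr⟩ : ∃ r, r = (ract (phi m) (dpr_phi m) (dg m e)⁻¹).unop
        ((ract (phi m) (dpr_phi m) x).unop p) := ⟨_, rfl⟩
    have h1 : (ract (phi m) (dpr_phi m) (dg m e)).unop r = (ract (phi m) (dpr_phi m) x).unop p := by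
      rw [hr, ← ract_mul, inv_mul_cancel, map_one]
      rfl
    have h2 := tht_dg q hq hm e r
    rw [h1, ih] at h2
    rw [← hr, map_mul, map_inv, ← mul_assoc, h2, mul_inv_cancel_right]

end

theorem stab_le {m : ℕ} (hm : 0 < m) (x : DA m)
    (hx : (ract (phi m) (dpr_phi m) x).unop (0, 1) = (0, 1)) : x ∈ Subgroup.zpowers (del m ^ 2) := by
  haveI := ker_normal m
  let q : DA m →* DA m ⧸ Subgroup.zpowers (del m ^ 2) := QuotientGroup.mk' _
  have hq : q (del m ^ 2) = 1 :=
    (QuotientGroup.eq_one_iff _).2 (Subgroup.mem_zpowers _)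
  have h1 := tht_all q hq hm x (0, 1)
  rw [hx] at h1
  have h2 : q x = 1 := by
    have h3 := mul_left_cancel (a := tht q (0, 1)) (b := 1) (c := q x) (by rw [mul_one]; exact h1)
    exact h3.symm
  exact (QuotientGroup.eq_one_iff _).1 h2

end Pool.Agent.H52.PAG
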