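import Pool.Agent.H52.PAG.Red

/-!
# [H52 PAG MAT] Matsumoto's theorem for a set of generators with finite entries

Same proof as `Pool.H8.CDW.matsumoto` (copy it from `Pool/Agent/H8/CDW/D2.lean`), where the hypothesis `hM : ∀ i j, M i j ≠ 0` is used only for `i, j ∈ J`.
The relation: `((braidWord M i j).map f).prod` and `((braidWord M j i).map f).prod` are, in one of the two orders, `alt (f i) (f j) (M i j)`
and `alt (f j) (f i) (M i j)`: `braidWord M i j = alternatingWord i j (M i j)`, and `alternatingWord i j n` is `altw i j n` for even `n`, `altw j i n` for odd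
`n` (induction with `alternatingWord_succ'`; `M j i = M i j`).
-/

namespace Pool.Agent.H52.PAG

open CoxeterSystem Pool.H8.CDW

variable {B W : Type*} [Group W] {M : CoxeterMatrix B}

private theorem map_altWord {N : Type*} [Monoid N] (f : B → N) (i j : B) (n : ℕ) :
    ((alternatingWord i j n).map f).prod = if Even n then alt (f i) (f j) n else alt (f j) (f i) n := by
  induction n with
  | zero => simp [alternatingWord, alt]
  | succ n ih =>
    rw [alternatingWord_succ', List.map_cons, List.prod_cons, ih]
    by_cases h : Even n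
    · have h1 : ¬ Even (n + 1) := by
        rw [Nat.even_add_one]
        exact fun h2 => h2 h
      rw [if_pos h, if_pos h, if_neg h1, alt]
    · have h1 : Even (n + 1) := Nat.even_add_one.2 h
      rw [if_neg h, if_neg h, if_pos h1, alt]

private theorem map_braid {N : Type*} [Monoid N] (f : B → N) {i j : B}
    (hf : alt (f i) (f j) (M i j) = alt (f j) (f i) (M i j)) :
    ((braidWord M i j).map f).prod = ((braidWord M j i).map f).prod := by
  unfold braidWord
  rw [map_altWord, map_altWord, M.symmetric j i]
  split_ifs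
  · exact hf
  · exact hf.symm

theorem mats (cs : CoxeterSystem M W) (J : Set B) (hM : ∀ i ∈ J, ∀ j ∈ J, M i j ≠ 0) {N : Type*} [Monoid N] (f : B → N)
    (hf : ∀ i ∈ J, ∀ j ∈ J, alt (f i) (f j) (M i j) = alt (f j) (f i) (M i j))
    {ω ω' : List B} (hω : cs.IsReduced ω) (hω' : cs.IsReduced ω') (hJ : ∀ i ∈ ω, i ∈ J)
    (hJ' : ∀ i ∈ ω', i ∈ J) (h : cs.wordProd ω = cs.wordProd ω') :
    (ω.map f).prod = (ω'.map f).prod := by
  suffices H : ∀ n : ℕ, ∀ ω ω' : List B, ω.length = n → cs.IsReduced ω → cs.IsReduced ω' →
      (∀ i ∈ ω, i ∈ J) → (∀ i ∈ ω', i ∈ J) → cs.wordProd ω = cs.wordProd ω' →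
      (ω.map f).prod = (ω'.map f).prod from H _ ω ω' rfl hω hω' hJ hJ' h
  intro n
  induction n with
  | zero =>
    intro ω ω' hn hω hω' _ _ h
    have h1 : ω = [] := List.length_eq_zero_iff.1 hn
    have h2 : ω'.length = 0 := by
      rw [← hω'.eq, ← h, hω.eq, hn]
    rw [h1, List.length_eq_zero_iff.1 h2]
  | succ n ih =>
    intro ω ω' hn hω hω' hJ hJ' h
    have hn' : ω'.length = n + 1 := by rw [← hω'.eq, ← h, hω.eq, hn]
    -- the case of equal first letters
    have case1 : ∀ (i : B) (α β : List B), (i :: α).length = n + 1 → cs.IsReduced (i :: α) →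
        cs.IsReduced (i :: β) → (∀ k ∈ i :: α, k ∈ J) → (∀ k ∈ i :: β, k ∈ J) →
        cs.wordProd (i :: α) = cs.wordProd (i :: β) →
        ((i :: α).map f).prod = ((i :: β).map f).prod := by
      intro i α β hl h1 h2 h3 h4 h5
      rw [List.map_cons, List.map_cons, List.prod_cons, List.prod_cons]
      congr 1
      refine ih α β (by simpa using hl) (d2_red_tail cs h1) (d2_red_tail cs h2)
        (fun k hk => h3 k (List.mem_cons_of_mem _ hk))
        (fun k hk => h4 k (List.mem_cons_of_mem _ hk)) ?_
      rw [wordProd_cons, wordProd_cons] at h5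
      exact mul_left_cancel h5
    obtain ⟨i, α, rfl⟩ : ∃ i α, ω = i :: α := List.exists_cons_of_length_eq_add_one hn
    obtain ⟨j, β, rfl⟩ : ∃ j β, ω' = j :: β := List.exists_cons_of_length_eq_add_one hn'
    by_cases hij : i = j
    · subst hij
      exact case1 i α β hn hω hω' hJ hJ' h
    have hiJ : i ∈ J := hJ i List.mem_cons_self
    have hjJ : j ∈ J := hJ' j List.mem_cons_self
    set w := cs.wordProd (i :: α) with hw
    have hlw : cs.length w = n + 1 := by rw [hw, hω.eq, hn]
    have hdi : cs.IsLeftDescent w i := d2_left cs hω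
    have hdj : cs.IsLeftDescent w j := by rw [h]; exact d2_left cs hω'
    obtain ⟨u, hu1, hu2⟩ := two_descents cs hij (hM i hiJ j hjJ) hdi hdj
    have hbJ : ∀ k ∈ braidWord M i j, k ∈ J := by
      intro k hk
      rcases d2_mem_alt i j _ k hk with rfl | rfl <;> assumption
    have hbJ' : ∀ k ∈ braidWord M j i, k ∈ J := by
      intro k hk
      rcases d2_mem_alt j i _ k hk with rfl | rfl <;> assumption
    have huJ : u ∈ par cs J := by
      have e1 : u = (cs.wordProd (braidWord M i j))⁻¹ * w := by
        rw [hu1, inv_mul_cancel_left]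
      rw [e1]
      exact mul_mem (inv_mem (d2_prod_mem cs _ hbJ)) (d2_prod_mem cs _ hJ)
    obtain ⟨ν, hν1, hν2, hν3⟩ := (mem_par_iff cs).1 huJ
    have hlen1 : (braidWord M i j).length = M i j := by
      unfold braidWord
      rw [length_alternatingWord]
    have hlen2 : (braidWord M j i).length = M i j := by
      unfold braidWord
      rw [length_alternatingWord, M.symmetric j i]
    have hp1 : cs.wordProd (braidWord M i j ++ ν) = w := by
      rw [wordProd_append, hν3, hu1]
    have hp2 : cs.wordProd (braidWord M j i ++ ν) = w := by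
      rw [wordProd_append, hν3, cs.wordProd_braidWord_eq j i, hu1]
    have hνl : ν.length = cs.length u := by rw [← hν3, hν2.eq]
    have hr1 : cs.IsReduced (braidWord M i j ++ ν) := by
      unfold CoxeterSystem.IsReduced
      rw [hp1, List.length_append, hlen1, hνl, hu2]
    have hr2 : cs.IsReduced (braidWord M j i ++ ν) := by
      unfold CoxeterSystem.IsReduced
      rw [hp2, List.length_append, hlen2, hνl, hu2]
    have hJ1 : ∀ k ∈ braidWord M i j ++ ν, k ∈ J := by
      intro k hk
      rcases List.mem_append.1 hk with hk | hk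
      · exact hbJ k hk
      · exact hν1 k hk
    have hJ2 : ∀ k ∈ braidWord M j i ++ ν, k ∈ J := by
      intro k hk
      rcases List.mem_append.1 hk with hk | hk
      · exact hbJ' k hk
      · exact hν1 k hk
    have hcmp : ((braidWord M i j ++ ν).map f).prod = ((braidWord M j i ++ ν).map f).prod := by
      rw [List.map_append, List.map_append, List.prod_append, List.prod_append,
        map_braid f (hf i hiJ j hjJ)]
    rcases d2_begin M hij (hM i hiJ j hjJ) with ⟨p, q, hp, hq⟩ | ⟨p, q, hp, hq⟩
    · have e1 : ((i :: α).map f).prod = ((braidWord M i j ++ ν).map f).prod := by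
        rw [hp] at hr1 hJ1 hp1 ⊢
        exact case1 i α (p ++ ν) hn hω hr1 hJ hJ1 hp1.symm
      have e2 : ((j :: β).map f).prod = ((braidWord M j i ++ ν).map f).prod := by
        rw [hq] at hr2 hJ2 hp2 ⊢
        exact case1 j β (q ++ ν) hn' hω' hr2 hJ' hJ2 (h.symm.trans hp2.symm)
      rw [e1, e2, hcmp]
    · have e1 : ((i :: α).map f).prod = ((braidWord M j i ++ ν).map f).prod := by
        rw [hp] at hr2 hJ2 hp2 ⊢
        exact case1 i α (p ++ ν) hn hω hr2 hJ hJ2 hp2.symm
      have e2 : ((j :: β).map f).prod = ((braidWord M i j ++ ν).map f).prod := by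
        rw [hq] at hr1 hJ1 hp1 ⊢
        exact case1 j β (q ++ ν) hn' hω' hr1 hJ' hJ1 (h.symm.trans hp1.symm)
      rw [e1, e2, hcmp]

end Pool.Agent.H52.PAG
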