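import Pool.Agent.H52.PAG.Ker

/-!
# [H52 PAG THE] the pure subgroup of the dihedral Artin group and its homomorphism to the free group

`PD m` is the stabiliser of `0` under the action on `ZMod (2 m)` (first coordinate of the action on `ZMod (2 m) × G`).
`(0, g) · x = (0, g * the x)` for `x ∈ PD m` (`ract_left`).
`free_of_le`: `the` restricted to `H` is injective: `the x = 1` gives `(0,1) · x = (0,1)`, `stab_le`, `x = del ^ (2 l)`, degree `2 m l = 0`
(`dega_del`), `l = 0`.  So `H` is isomorphic to a subgroup of a free group (`subgroupIsFreeOfIsFree`, `IsFreeGroup.ofMulEquiv`).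
-/

namespace Pool.Agent.H52.PAG

open MulOpposite

private theorem act_zero {m : ℕ} {x : DA m}
    (hx : ((ract (phi m) (dpr_phi m) x).unop (0, 1)).1 = 0) (g : FreeGroup (Fin (m - 1))) :
    (ract (phi m) (dpr_phi m) x).unop (0, g) =
      (0, g * ((ract (phi m) (dpr_phi m) x).unop (0, 1)).2) := by
  have h := ract_left (phi m) (dpr_phi m) x 0 g 1
  rw [mul_one, hx] at h
  exact h

/-- the pure subgroup -/
def PD (m : ℕ) : Subgroup (DA m) where
  carrier := {x | ((ract (phi m) (dpr_phi m) x).unop (0, 1)).1 = 0}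
  one_mem' := by
    show ((ract (phi m) (dpr_phi m) 1).unop (0, 1)).1 = 0
    rw [map_one]
    rfl
  mul_mem' := by
    intro x y hx hy
    show ((ract (phi m) (dpr_phi m) (x * y)).unop (0, 1)).1 = 0
    rw [ract_mul, act_zero hx, act_zero hy]
  inv_mem' := by
    intro x hx
    show ((ract (phi m) (dpr_phi m) x⁻¹).unop (0, 1)).1 = 0
    have h := act_zero hx (((ract (phi m) (dpr_phi m) x).unop (0, 1)).2)⁻¹
    rw [inv_mul_cancel] at h
    rw [map_inv, unop_inv, Equiv.Perm.inv_eq_iff_eq.2 h.symm]

theorem mem_PD {m : ℕ} {x : DA m} : x ∈ PD m ↔ ((ract (phi m) (dpr_phi m) x).unop (0, 1)).1 = 0 := Iff.rfl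

/-- the homomorphism to the free group -/
def the (m : ℕ) : PD m →* FreeGroup (Fin (m - 1)) where
  toFun x := ((ract (phi m) (dpr_phi m) x.1).unop (0, 1)).2
  map_one' := by
    rw [OneMemClass.coe_one, map_one]
    rfl
  map_mul' := by
    intro x y
    rw [Subgroup.coe_mul, ract_mul, act_zero x.2, act_zero y.2, one_mul]

theorem the_apply {m : ℕ} (x : PD m) (g : FreeGroup (Fin (m - 1))) :
    (ract (phi m) (dpr_phi m) x.1).unop (0, g) = (0, g * the m x) := by
  exact act_zero x.2 g

/-- to compute: if `(0, 1) · x = (0, g)` then `x ∈ PD m` and `the x = g` -/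
theorem the_eq {m : ℕ} {x : DA m} {g : FreeGroup (Fin (m - 1))}
    (h : (ract (phi m) (dpr_phi m) x).unop (0, 1) = (0, g)) (hx : x ∈ PD m) : the m ⟨x, hx⟩ = g := by
  show ((ract (phi m) (dpr_phi m) x).unop (0, 1)).2 = g
  rw [h]

theorem free_of_le {m : ℕ} (hm : 0 < m) (H : Subgroup (DA m)) (h1 : H ≤ PD m) (h2 : ∀ x ∈ H, dega m x = 1) :
    IsFreeGroup H := by
  let f : H →* FreeGroup (Fin (m - 1)) := (the m).comp (Subgroup.inclusion h1)
  have hf : Function.Injective f := by
    refine (injective_iff_map_eq_one f).2 fun x hx => ?_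
    have h3 : (ract (phi m) (dpr_phi m) x.1).unop (0, 1) = (0, 1) := by
      have h4 := the_apply (Subgroup.inclusion h1 x) 1
      rw [show the m (Subgroup.inclusion h1 x) = 1 from hx, mul_one] at h4
      exact h4
    obtain ⟨l, hl⟩ := Subgroup.mem_zpowers_iff.1 (stab_le hm x.1 h3)
    have h5 := h2 x.1 x.2
    rw [← hl, map_zpow, map_pow, dega_del, ← ofAdd_nsmul, ← ofAdd_zsmul, ofAdd_eq_one] at h5
    have h6 : l = 0 := by
      simpa [hm.ne'] using h5
    rw [h6, zpow_zero] at hl
    exact Subtype.ext hl.symm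
  exact IsFreeGroup.ofMulEquiv (MonoidHom.ofInjective hf).symm

/-- the deep terms of the lower central series are free -/
theorem free_lcs {m : ℕ} (hm : 0 < m) (c : ℕ) : IsFreeGroup ((PD m).lowerCentralSeries (c + 1)) := by
  refine free_of_le hm _ ?_ fun x hx => ?_
  · exact Subgroup.lowerCentralSeries_antitone _ (Nat.zero_le _)
  · have h1 : (PD m).lowerCentralSeries (c + 1) ≤ (dega m).ker := by
      show ⁅(PD m).lowerCentralSeries c, PD m⁆ ≤ _
      refine Subgroup.commutator_le.2 fun a _ b _ => ?_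
      rw [MonoidHom.mem_ker, map_commutatorElement, commutatorElement_eq_one_iff_mul_comm]
      exact mul_comm _ _
    exact h1 hx

end Pool.Agent.H52.PAG
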