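import Pool.Agent.H52.PAG.Ret
import Pool.Agent.H52.PAG.The

/-!
# [H52 PAG PDW] `PD m` is the kernel of the homomorphism to the Coxeter group

`inc s t : DA (M s t) →* Art M`, `a ↦ gen s`, `b ↦ gen t`, `κ = toCox ∘ inc`.
Let `m = M s t ≠ 0`.  `Ω v = κ (seg m 0 v.val)` for `v : ZMod (2 m)`.  `Ω (v · x) = Ω v * κ x` (first coordinate of the action `ract`), by `da_induction`
and letters: up: `seg 0 k * cc k = seg 0 (k + 1)`; down: `κ (cc u ^ 2) = 1`, `seg 0 (u+1) * cc u = seg 0 u * cc u ^ 2`; when `v.val + 1 = 2 m`, use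
`κ (seg m 0 (2 m)) = 1` (alternating product `= (s_s s_t)^m`, `seg_eq_alt`, `map_alt`, or `seg_two_mul` and `κ (del)^2 = 1`).
Value for `v = 0`: `κ x = Ω (0 · x)`.  So `x ∈ PD m` implies `κ x = 1`.  Conversely, if `κ x = 1` then `k = (0 · x).val < 2 m` has
`κ (seg m 0 k) = 1`: for `k = 2 l` this is `(s_s s_t)^l`, so `l = 0` by `pow_ne_one`; for odd `k` the length of
`κ (seg m 0 k)` has the parity of `k` (`cs.lengthParity`, a homomorphism, value `Multiplicative.ofAdd 1` at simple reflections), a contradiction.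
-/

namespace Pool.Agent.H52.PAG

open CoxeterSystem Pool.H8.CDW MulOpposite

variable {B : Type*} (M : CoxeterMatrix B)

/-- the homomorphism from the dihedral Artin group -/
def inc (s t : B) (h : M s t ≠ 0) : DA (M s t) →* Art M :=
  dlift (fun e => gen M (if e then t else s)) (by simpa using gen_rel h)

theorem inc_dg (s t : B) (h : M s t ≠ 0) (e : Bool) : inc M s t h (dg (M s t) e) = gen M (if e then t else s) :=
  dlift_dg _ _ e

theorem inc_mem (s t : B) (h : M s t ≠ 0) (x : DA (M s t)) : inc M s t h x ∈ Subgroup.closure {gen M s, gen M t} := by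
  have hg : ∀ e : Bool, inc M s t h (dg (M s t) e) ∈ Subgroup.closure {gen M s, gen M t} := by
    intro e
    rw [inc_dg]
    cases e
    · exact Subgroup.subset_closure (Or.inl rfl)
    · exact Subgroup.subset_closure (Or.inr rfl)
  induction x using da_induction with
  | h1 => rw [map_one]; exact one_mem _
  | h2 x e ih => rw [map_mul]; exact mul_mem ih (hg e)
  | h3 x e ih => rw [map_mul, map_inv]; exact mul_mem ih (inv_mem (hg e))

theorem inc_range (s t : B) (h : M s t ≠ 0) : (inc M s t h).range = Subgroup.closure {gen M s, gen M t} := by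
  refine le_antisymm ?_ ?_
  · rintro _ ⟨x, rfl⟩
    exact inc_mem M s t h x
  · rw [Subgroup.closure_le]
    rintro y hy
    rcases hy with hy | hy
    · exact ⟨dg (M s t) false, by rw [hy]; exact inc_dg M s t h false⟩
    · exact ⟨dg (M s t) true, by rw [Set.mem_singleton_iff.1 hy]; exact inc_dg M s t h true⟩

private theorem alt_two {G : Type*} [Monoid G] (x y : G) (n : ℕ) : alt x y (2 * n) = (x * y) ^ n := by
  induction n with
  | zero => rw [mul_zero, pow_zero]; rfl
  | succ n ih =>
    have e : 2 * (n + 1) = 2 * n + 1 + 1 := by ring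
    rw [e, alt, alt, ih, pow_succ', mul_assoc]

/-- the homomorphism to the Coxeter group -/
private def kp (s t : B) (h : M s t ≠ 0) : DA (M s t) →* M.Group := (toCox M).comp (inc M s t h)

private theorem kp_dg (s t : B) (h : M s t ≠ 0) (e : Bool) :
    kp M s t h (dg (M s t) e) = M.simple (if e then t else s) := by
  show toCox M (inc M s t h (dg (M s t) e)) = _
  rw [inc_dg, toCox_gen]

private theorem kp_seg (s t : B) (h : M s t ≠ 0) (n : ℕ) :
    kp M s t h (seg (M s t) 0 n) = alt (M.simple s) (M.simple t) n := by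
  rw [seg_eq_alt, map_alt]
  have h0 : kp M s t h (cc (M s t) 0) = M.simple s := by
    unfold cc
    rw [kp_dg]
    simp
  have h1 : kp M s t h (cc (M s t) (0 + 1)) = M.simple t := by
    unfold cc
    rw [kp_dg]
    simp
  rw [h0, h1]

private theorem kp_cc_sq (s t : B) (h : M s t ≠ 0) (k : ℕ) :
    kp M s t h (cc (M s t) k) * kp M s t h (cc (M s t) k) = 1 := by
  unfold cc
  rw [kp_dg]
  have := M.toCoxeterSystem.simple_mul_simple_self (if (decide (Odd k)) = true then t else s)
  rwa [CoxeterMatrix.toCoxeterSystem_simple] at this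

/-- the value at a vertex -/
private def om (s t : B) (h : M s t ≠ 0) (v : ZMod (2 * M s t)) : M.Group :=
  kp M s t h (seg (M s t) 0 v.val)

private theorem om_succ (s t : B) (h : M s t ≠ 0) (u : ZMod (2 * M s t)) :
    om M s t h (u + 1) = om M s t h u * kp M s t h (cc (M s t) u.val) := by
  have hne : NeZero (2 * M s t) := ⟨by omega⟩
  unfold om
  rw [← map_mul]
  have e1 : seg (M s t) 0 u.val * cc (M s t) u.val = seg (M s t) 0 (u.val + 1) := by
    rw [seg_succ', zero_add]
  rw [e1]
  have h1 : 1 < 2 * M s t := by omega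
  have hlt := ZMod.val_lt u
  rw [ZMod.val_add, ZMod.val_one'' (by omega)]
  by_cases h2 : u.val + 1 < 2 * M s t
  · rw [Nat.mod_eq_of_lt h2]
  · have h3 : u.val + 1 = 2 * M s t := by omega
    rw [h3, Nat.mod_self, kp_seg, kp_seg, alt_two]
    have := M.toCoxeterSystem.simple_mul_simple_pow s t
    rw [CoxeterMatrix.toCoxeterSystem_simple] at this
    rw [this]
    rfl

private theorem par_val (m : ℕ) (hm : 2 * m ≠ 0) (v : ZMod (2 * m)) : par v = decide (Odd v.val) := by
  have hne : NeZero (2 * m) := ⟨hm⟩
  have := par_natCast m v.val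
  rwa [ZMod.natCast_zmod_val] at this

private theorem om_letter (s t : B) (h : M s t ≠ 0) (e : Bool) (v : ZMod (2 * M s t))
    (g : FreeGroup (Fin (M s t - 1))) :
    om M s t h (((ract (phi (M s t)) (dpr_phi (M s t)) (dg (M s t) e)).unop (v, g)).1) =
      om M s t h v * kp M s t h (dg (M s t) e) := by
  rw [ract_dg]
  have hm : 2 * M s t ≠ 0 := by omega
  by_cases hp : par v = e
  · rw [if_pos hp]
    show om M s t h (v + 1) = _
    rw [om_succ]
    unfold cc
    rw [← par_val _ hm, hp]
  · rw [if_neg hp]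
    show om M s t h (v - 1) = _
    have h1 := om_succ M s t h (v - 1)
    rw [sub_add_cancel] at h1
    have h2 : cc (M s t) (v - 1).val = dg (M s t) e := by
      unfold cc
      rw [← par_val _ hm, par_sub_one]
      congr 1
      cases e <;> cases hv : par v <;> simp_all
    rw [h1, h2, mul_assoc, ← h2, kp_cc_sq, mul_one]

private theorem om_act (s t : B) (h : M s t ≠ 0) (x : DA (M s t)) :
    ∀ (p : ZMod (2 * M s t) × FreeGroup (Fin (M s t - 1))),
    om M s t h (((ract (phi (M s t)) (dpr_phi (M s t)) x).unop p).1) =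
      om M s t h p.1 * kp M s t h x := by
  induction x using da_induction with
  | h1 =>
    intro p
    rw [map_one, map_one, mul_one]
    rfl
  | h2 x e ih =>
    intro p
    rw [ract_mul, map_mul (kp M s t h), ← mul_assoc, ← ih p]
    exact om_letter M s t h e _ _
  | h3 x e ih =>
    intro p
    rw [map_mul (kp M s t h), ← mul_assoc, ← ih p, map_inv (kp M s t h), eq_mul_inv_iff_mul_eq]
    have h1 := om_letter M s t h e
      ((ract (phi (M s t)) (dpr_phi (M s t)) (x * (dg (M s t) e)⁻¹)).unop p).1
      ((ract (phi (M s t)) (dpr_phi (M s t)) (x * (dg (M s t) e)⁻¹)).unop p).2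
    rw [Prod.mk.eta, ← ract_mul, inv_mul_cancel_right] at h1
    exact h1.symm

private theorem parity_seg (s t : B) (h : M s t ≠ 0) (n : ℕ) :
    M.toCoxeterSystem.lengthParity (kp M s t h (seg (M s t) 0 n)) = Multiplicative.ofAdd (n : ZMod 2) := by
  have key : ∀ (x y : B) (n : ℕ), M.toCoxeterSystem.lengthParity (alt (M.simple x) (M.simple y) n) =
      Multiplicative.ofAdd (n : ZMod 2) := by
    intro x y n
    induction n generalizing x y with
    | zero => rw [alt, map_one]; rfl
    | succ n ih =>
      have h2 := M.toCoxeterSystem.lengthParity_simple x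
      rw [CoxeterMatrix.toCoxeterSystem_simple] at h2
      rw [alt, map_mul, ih, h2, ← ofAdd_add]
      congr 1
      push_cast
      ring
  rw [kp_seg, key]

theorem inc_mem_pureA {s t : B} (hst : s ≠ t) (h : M s t ≠ 0) (x : DA (M s t)) :
    inc M s t h x ∈ pureA M ↔ x ∈ PD (M s t) := by
  have hne : NeZero (2 * M s t) := ⟨by omega⟩
  have h1 := om_act M s t h x (0, 1)
  have h0 : om M s t h (0 : ZMod (2 * M s t)) = 1 := by
    unfold om
    rw [ZMod.val_zero, kp_seg]
    rfl
  rw [h0, one_mul] at h1
  have h2 : inc M s t h x ∈ pureA M ↔ kp M s t h x = 1 := Iff.rfl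
  rw [h2, mem_PD, ← h1]
  set v := ((ract (phi (M s t)) (dpr_phi (M s t)) x).unop (0, 1)).1 with hv
  constructor
  · intro h3
    have hlt := ZMod.val_lt v
    unfold om at h3
    rcases Nat.even_or_odd' v.val with ⟨l, hl | hl⟩
    · rw [hl, kp_seg, alt_two] at h3
      have h4 : l = 0 := by
        by_contra h5
        refine pow_ne_one M.toCoxeterSystem hst (k := l) (by omega) (by omega) ?_
        rw [CoxeterMatrix.toCoxeterSystem_simple]
        exact h3
      rw [h4, mul_zero] at hl
      exact (ZMod.val_eq_zero v).1 hl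
    · exfalso
      have h4 := congrArg M.toCoxeterSystem.lengthParity h3
      rw [parity_seg, map_one, hl] at h4
      have h5 : ((2 * l + 1 : ℕ) : ZMod 2) = 0 := Multiplicative.ofAdd.injective h4
      rw [ZMod.natCast_eq_zero_iff] at h5
      omega
  · intro h3
    rw [h3, h0]

end Pool.Agent.H52.PAG
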