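import Pool.Agent.H52.PAG.Act

/-!
# [H52 PAG PHI] the values in the free group

`fph m k` for `k < m - 1` is the `k`-th generator of the free group on `Fin (m - 1)`, and `fph m k = (fph (m-2) * ⋯ * fph 0)⁻¹` for `k ≥ m - 1`
(only `k = m - 1` is used).  `phi v = fph (v.val % m)`; `phi (v + m) = phi v`.
`dpr_phi` (trivial for `m = 0`): for `v = m` the product is `fph (m-1) * fph (m-2) * ⋯ * fph 0 = 1`.  If `dpr φ v m = 1` then
`dpr φ (v+1) m = φ v * dpr φ v (m-1)`, and `dpr φ v m = dpr φ v (m-1) * φ (v - m)`, `φ (v-m) = φ v`; so `dpr φ (v+1) m` is conjugate to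
`dpr φ v m`.  Every `v` is `m + k` with `k : ℕ`.
-/

namespace Pool.Agent.H52.PAG

/-- the product of the first `n` generators, in decreasing order -/
def gpr (m : ℕ) : ℕ → FreeGroup (Fin (m - 1))
  | 0 => 1
  | n + 1 => (if h : n < m - 1 then FreeGroup.of ⟨n, h⟩ else 1) * gpr m n

/-- the values -/
def fph (m k : ℕ) : FreeGroup (Fin (m - 1)) :=
  if h : k < m - 1 then FreeGroup.of ⟨k, h⟩ else (gpr m (m - 1))⁻¹

/-- the values on `ZMod (2 m)` -/
def phi (m : ℕ) (v : ZMod (2 * m)) : FreeGroup (Fin (m - 1)) := fph m (v.val % m)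

theorem phi_natCast {m : ℕ} (hm : 0 < m) (k : ℕ) : phi m (k : ZMod (2 * m)) = fph m (k % m) := by
  unfold phi
  rw [ZMod.val_natCast, Nat.mod_mul_left_mod]

theorem phi_add {m : ℕ} (hm : 0 < m) (v : ZMod (2 * m)) : phi m (v + m) = phi m v := by
  haveI : NeZero (2 * m) := ⟨by omega⟩
  obtain ⟨k, rfl⟩ : ∃ k : ℕ, v = (k : ZMod (2 * m)) := ⟨v.val, (ZMod.natCast_zmod_val v).symm⟩
  rw [← Nat.cast_add, phi_natCast hm, phi_natCast hm, Nat.add_mod_right]

private theorem dpr_succ {m : ℕ} {G : Type*} [Group G] (φ : ZMod (2 * m) → G) (n : ℕ) :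
    ∀ v : ZMod (2 * m), dpr φ v (n + 1) = dpr φ v n * φ (v - ((n + 1 : ℕ) : ZMod (2 * m))) := by
  induction n with
  | zero =>
    intro v
    simp only [dpr, zero_add, Nat.cast_one, mul_one, one_mul]
  | succ n ih =>
    intro v
    change φ (v - 1) * dpr φ (v - 1) (n + 1) = (φ (v - 1) * dpr φ (v - 1) n) * _
    rw [ih (v - 1), mul_assoc]
    congr 3
    push_cast
    ring

private theorem dpr_gpr {m : ℕ} (hm : 0 < m) (n : ℕ) (hn : n ≤ m - 1) :
    dpr (phi m) ((n : ℕ) : ZMod (2 * m)) n = gpr m n := by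
  induction n with
  | zero => rfl
  | succ n ih =>
    have h1 : (((n + 1 : ℕ) : ZMod (2 * m)) - 1) = ((n : ℕ) : ZMod (2 * m)) := by
      push_cast
      ring
    have h2 : n < m - 1 := by omega
    change phi m (((n + 1 : ℕ) : ZMod (2 * m)) - 1) * dpr (phi m) (((n + 1 : ℕ) : ZMod (2 * m)) - 1) n =
      (if h : n < m - 1 then FreeGroup.of ⟨n, h⟩ else 1) * gpr m n
    rw [h1, ih (by omega), phi_natCast hm, Nat.mod_eq_of_lt (by omega), fph, dif_pos h2, dif_pos h2]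

private theorem dpr_base {m : ℕ} (hm : 0 < m) : dpr (phi m) ((m : ℕ) : ZMod (2 * m)) m = 1 := by
  obtain ⟨n, hn⟩ : ∃ n, m = n + 1 := ⟨m - 1, by omega⟩
  have h1 : (((m : ℕ) : ZMod (2 * m)) - 1) = ((n : ℕ) : ZMod (2 * m)) := by
    have h2 : ((m : ℕ) : ZMod (2 * m)) = ((n + 1 : ℕ) : ZMod (2 * m)) := by rw [← hn]
    rw [h2]
    push_cast
    ring
  have h2 : dpr (phi m) ((m : ℕ) : ZMod (2 * m)) (n + 1) =
      phi m (((m : ℕ) : ZMod (2 * m)) - 1) * dpr (phi m) (((m : ℕ) : ZMod (2 * m)) - 1) n := rfl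
  have h3 : dpr (phi m) ((m : ℕ) : ZMod (2 * m)) m = dpr (phi m) ((m : ℕ) : ZMod (2 * m)) (n + 1) := by
    rw [← hn]
  rw [h3, h2, h1, dpr_gpr hm n (by omega), phi_natCast hm, Nat.mod_eq_of_lt (by omega), fph,
    dif_neg (by omega)]
  have h4 : gpr m (m - 1) = gpr m n := congrArg (gpr m) (by omega)
  rw [h4, inv_mul_cancel]

private theorem dpr_step {m : ℕ} (hm : 0 < m) (v : ZMod (2 * m)) (h : dpr (phi m) v m = 1) :
    dpr (phi m) (v + 1) m = 1 := by
  obtain ⟨n, hn⟩ : ∃ n, m = n + 1 := ⟨m - 1, by omega⟩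
  have h1 : dpr (phi m) (v + 1) (n + 1) = phi m (v + 1 - 1) * dpr (phi m) (v + 1 - 1) n := rfl
  have h2 := dpr_succ (phi m) n v
  have h3 : phi m (v - ((n + 1 : ℕ) : ZMod (2 * m))) = phi m v := by
    rw [← hn]
    have h4 := phi_add hm (v - (m : ℕ))
    rw [sub_add_cancel] at h4
    exact h4.symm
  have h5 : ∀ w, dpr (phi m) w m = dpr (phi m) w (n + 1) := by
    intro w
    rw [← hn]
  rw [h5, h2, h3] at h
  rw [h5, h1, add_sub_cancel_right, eq_inv_of_mul_eq_one_left h, mul_inv_cancel]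

theorem dpr_phi (m : ℕ) (v : ZMod (2 * m)) : dpr (phi m) v m = 1 := by
  rcases Nat.eq_zero_or_pos m with hm | hm
  · subst hm
    rfl
  · haveI : NeZero (2 * m) := ⟨by omega⟩
    have h1 : ∀ k : ℕ, dpr (phi m) (((m : ℕ) : ZMod (2 * m)) + (k : ℕ)) m = 1 := by
      intro k
      induction k with
      | zero =>
        rw [Nat.cast_zero, add_zero]
        exact dpr_base hm
      | succ k ih =>
        have h2 := dpr_step hm _ ih
        rwa [add_assoc, ← Nat.cast_succ] at h2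
    have h2 := h1 (v - (m : ℕ)).val
    rw [ZMod.natCast_zmod_val, add_sub_cancel] at h2
    exact h2

end Pool.Agent.H52.PAG
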