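import Pool.Agent.H52.PAG.Run

/-!
# [H52 PAG PRM] the right action of the Artin group on `X_J × N`

`X` = minimal representatives, `N` a group with elements `f j` satisfying the braid relations for `j ∈ J`.
`sp r (u, g) = (u s_r, g)` or `(u, g * f (jj u r))`; the inverse is the same with `(f (jj u r))⁻¹`
(`(u s_r) s_r = u`, and in the second case nothing changes in the first coordinate).
`sp_word`: induction on the word, from `run`.
`sp_rel`: for `i ≠ j` use `sp_word`, `run_braid` and `alt_map_prod` (for the map `r ↦ op (sp r)`); `i = j`: both sides are equal.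
-/

namespace Pool.Agent.H52.PAG

open CoxeterSystem Pool.H8.CDW MulOpposite

variable {B W : Type*} [Group W] {M : CoxeterMatrix B} (cs : CoxeterSystem M W) (J : Set B) {N : Type*} [Group N] (f : B → N)

open Classical in
/-- the action of a letter -/
noncomputable def sp (r : B) : Equiv.Perm ({u : W // IsL cs J u} × N) where
  toFun x := if h : IsL cs J (x.1.1 * cs.simple r) then (⟨x.1.1 * cs.simple r, h⟩, x.2) else (x.1, x.2 * f (jj cs J x.1.1 r))
  invFun x := if h : IsL cs J (x.1.1 * cs.simple r) then (⟨x.1.1 * cs.simple r, h⟩, x.2) else (x.1, x.2 * (f (jj cs J x.1.1 r))⁻¹)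
  left_inv := by
    rintro ⟨⟨u, hu⟩, g⟩
    have e : u * cs.simple r * cs.simple r = u := cs.simple_mul_simple_cancel_right r
    by_cases h : IsL cs J (u * cs.simple r)
    · have h2 : IsL cs J (u * cs.simple r * cs.simple r) := by rwa [e]
      dsimp only
      rw [dif_pos h]
      dsimp only
      rw [dif_pos h2]
      exact Prod.ext (Subtype.ext e) rfl
    · dsimp only
      rw [dif_neg h]
      dsimp only
      rw [dif_neg h, mul_inv_cancel_right]
  right_inv := by
    rintro ⟨⟨u, hu⟩, g⟩
    have e : u * cs.simple r * cs.simple r = u := cs.simple_mul_simple_cancel_right r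
    by_cases h : IsL cs J (u * cs.simple r)
    · have h2 : IsL cs J (u * cs.simple r * cs.simple r) := by rwa [e]
      dsimp only
      rw [dif_pos h]
      dsimp only
      rw [dif_pos h2]
      exact Prod.ext (Subtype.ext e) rfl
    · dsimp only
      rw [dif_neg h]
      dsimp only
      rw [dif_neg h, inv_mul_cancel_right]

theorem sp_up {r : B} (u : {u : W // IsL cs J u}) (g : N) (h : IsL cs J (u.1 * cs.simple r)) :
    sp cs J f r (u, g) = (⟨u.1 * cs.simple r, h⟩, g) := by
  unfold sp
  rw [Equiv.coe_fn_mk, dif_pos h]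

theorem sp_stay {r : B} (u : {u : W // IsL cs J u}) (g : N) (h : ¬ IsL cs J (u.1 * cs.simple r)) :
    sp cs J f r (u, g) = (u, g * f (jj cs J u.1 r)) := by
  unfold sp
  rw [Equiv.coe_fn_mk, dif_neg h]

theorem sp_word (w : List B) (u : {u : W // IsL cs J u}) (g : N) :
    ((((w.map fun r => op (sp cs J f r)).prod).unop (u, g)).1 : W) = (run cs J u.1 w).1 ∧
      (((w.map fun r => op (sp cs J f r)).prod).unop (u, g)).2 = g * ((run cs J u.1 w).2.map f).prod := by
  induction w generalizing u g with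
  | nil => exact ⟨rfl, (mul_one g).symm⟩
  | cons r w ih =>
    rw [List.map_cons, List.prod_cons, unop_mul, unop_op, Equiv.Perm.mul_apply]
    by_cases h : IsL cs J (u.1 * cs.simple r)
    · have e : run cs J u.1 (r :: w) = run cs J (u.1 * cs.simple r) w := by
        rw [run, if_pos h]
      rw [sp_up cs J f u g h, e]
      exact ih _ _
    · have e : run cs J u.1 (r :: w) = ((run cs J u.1 w).1, jj cs J u.1 r :: (run cs J u.1 w).2) := by
        rw [run, if_neg h]
      rw [sp_stay cs J f u g h, e]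
      refine ⟨(ih _ _).1, ?_⟩
      rw [(ih _ _).2, List.map_cons, List.prod_cons, mul_assoc]

theorem sp_rel (hM : ∀ i ∈ J, ∀ j ∈ J, M i j ≠ 0)
    (hf : ∀ i ∈ J, ∀ j ∈ J, alt (f i) (f j) (M i j) = alt (f j) (f i) (M i j)) (i j : B) :
    alt (op (sp cs J f i)) (op (sp cs J f j)) (M i j) = alt (op (sp cs J f j)) (op (sp cs J f i)) (M i j) := by
  by_cases hij : i = j
  · subst hij
    rfl
  · have h1 := alt_map_prod (fun r => op (sp cs J f r)) i j (M i j)
    have h2 := alt_map_prod (fun r => op (sp cs J f r)) j i (M i j)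
    rw [← h1, ← h2]
    apply unop_injective
    apply Equiv.ext
    rintro ⟨u, g⟩
    obtain ⟨a1, a2⟩ := sp_word cs J f (altw i j (M i j)) u g
    obtain ⟨b1, b2⟩ := sp_word cs J f (altw j i (M i j)) u g
    obtain ⟨c1, c2⟩ := run_braid cs hM f hf hij u.1 u.2
    refine Prod.ext (Subtype.ext ?_) ?_
    · rw [a1, b1, c1]
    · rw [a2, b2, c2]

/-- the right action of the Artin group -/
noncomputable def ra (hM : ∀ i ∈ J, ∀ j ∈ J, M i j ≠ 0)
    (hf : ∀ i ∈ J, ∀ j ∈ J, alt (f i) (f j) (M i j) = alt (f j) (f i) (M i j)) :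
    Art M →* (Equiv.Perm ({u : W // IsL cs J u} × N))ᵐᵒᵖ :=
  lift (fun r => op (sp cs J f r)) fun i j _ => sp_rel cs J f hM hf i j

theorem ra_gen (hM : ∀ i ∈ J, ∀ j ∈ J, M i j ≠ 0)
    (hf : ∀ i ∈ J, ∀ j ∈ J, alt (f i) (f j) (M i j) = alt (f j) (f i) (M i j)) (r : B) (x : {u : W // IsL cs J u} × N) :
    (ra cs J f hM hf (gen M r)).unop x = sp cs J f r x := by
  unfold ra
  rw [lift_gen, unop_op]

theorem ra_mul (hM : ∀ i ∈ J, ∀ j ∈ J, M i j ≠ 0)
    (hf : ∀ i ∈ J, ∀ j ∈ J, alt (f i) (f j) (M i j) = alt (f j) (f i) (M i j)) (x y : Art M) (p : {u : W // IsL cs J u} × N) :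
    (ra cs J f hM hf (x * y)).unop p = (ra cs J f hM hf y).unop ((ra cs J f hM hf x).unop p) := by
  rw [map_mul, unop_mul, Equiv.Perm.mul_apply]

end Pool.Agent.H52.PAG
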