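import Pool.Agent.H52.PAG.Prm

/-!
# [H52 PAG RET] the retraction

`ra_left`: by `art_induction` (all `p`): the set of `x` whose action commutes with left multiplication by `h` is closed under products with
letters and inverses of letters.
`ra_theta`: `κ : N →* M.Group` with `κ (f j) = s_j` for `j ∈ J`.  For a letter: `κ g * (u s_r)`, resp. `κ (g * f j) * u = κ g * s_j * u = κ g * u * s_r`
(`jj_spec`).  For the inverse of a letter apply this at the image point.  `art_induction`.
`ra_base`: `(1, g) · gen j = (1, g * f j)` for `j ∈ J`: `j` is a left descent of `s_j = 1 * s_j`, so the letter does not move, and `jj 1 j = j`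
(`jj_eq`, `injOn_of`).
`rho_fst`: by `ra_theta`, `κ g' * u' = 1` for `(u', g') = (1,1) · x`, `x ∈ pureA`; `κ g' ∈ par` (hypothesis), `isL_unique` gives `u' = 1`.
`rho` is a homomorphism by `ra_left` (with `h = rho x`).
-/

namespace Pool.Agent.H52.PAG

open CoxeterSystem Pool.H8.CDW MulOpposite

variable {B : Type*} {M : CoxeterMatrix B} (J : Set B) {N : Type*} [Group N] (f : B → N)
  (hM : ∀ i ∈ J, ∀ j ∈ J, M i j ≠ 0) (hf : ∀ i ∈ J, ∀ j ∈ J, alt (f i) (f j) (M i j) = alt (f j) (f i) (M i j))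

variable (M) in
/-- the base point -/
def bpt : {u : M.Group // IsL M.toCoxeterSystem J u} := ⟨1, isL_one _ _⟩

private theorem left_inv' {P : Type*} {F : Equiv.Perm (P × N)}
    (hF : ∀ (v : P) (h g : N), F (v, h * g) = ((F (v, g)).1, h * (F (v, g)).2))
    (v : P) (h g : N) : F⁻¹ (v, h * g) = ((F⁻¹ (v, g)).1, h * (F⁻¹ (v, g)).2) := by
  obtain ⟨w, k, hw⟩ : ∃ w k, F⁻¹ (v, g) = (w, k) := ⟨_, _, rfl⟩
  have h1 : F (w, k) = (v, g) := by
    rw [← hw]
    exact F.apply_symm_apply _
  rw [hw, Equiv.Perm.inv_eq_iff_eq, hF, h1]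

theorem ra_left (x : Art M) (h g : N) (u : {u : M.Group // IsL M.toCoxeterSystem J u}) :
    (ra M.toCoxeterSystem J f hM hf x).unop (u, h * g) =
      (((ra M.toCoxeterSystem J f hM hf x).unop (u, g)).1, h * ((ra M.toCoxeterSystem J f hM hf x).unop (u, g)).2) := by
  have hgen : ∀ (r : B) (u : {u : M.Group // IsL M.toCoxeterSystem J u}) (h g : N),
      (ra M.toCoxeterSystem J f hM hf (gen M r)).unop (u, h * g) =
      (((ra M.toCoxeterSystem J f hM hf (gen M r)).unop (u, g)).1,
        h * ((ra M.toCoxeterSystem J f hM hf (gen M r)).unop (u, g)).2) := by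
    intro r u h g
    rw [ra_gen, ra_gen]
    by_cases hu : IsL M.toCoxeterSystem J (u.1 * M.toCoxeterSystem.simple r)
    · rw [sp_up _ _ _ _ _ hu, sp_up _ _ _ _ _ hu]
    · rw [sp_stay _ _ _ _ _ hu, sp_stay _ _ _ _ _ hu, mul_assoc]
  induction x using art_induction with
  | h1 => rw [map_one]; rfl
  | h2 x e ih => rw [ra_mul, ra_mul, ih, hgen]
  | h3 x e ih =>
    rw [ra_mul, ra_mul, ih, map_inv, unop_inv]
    exact left_inv' (hgen e) _ _ _

theorem ra_theta (κ : N →* M.Group) (hκ : ∀ j ∈ J, κ (f j) = M.simple j) (x : Art M)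
    (p : {u : M.Group // IsL M.toCoxeterSystem J u} × N) :
    κ ((ra M.toCoxeterSystem J f hM hf x).unop p).2 * (((ra M.toCoxeterSystem J f hM hf x).unop p).1 : M.Group) =
      κ p.2 * (p.1 : M.Group) * toCox M x := by
  have hs : M.toCoxeterSystem.simple = M.simple := CoxeterMatrix.toCoxeterSystem_simple M
  have hgen : ∀ (r : B) (p : {u : M.Group // IsL M.toCoxeterSystem J u} × N),
      κ (sp M.toCoxeterSystem J f r p).2 * ((sp M.toCoxeterSystem J f r p).1 : M.Group) =
      κ p.2 * (p.1 : M.Group) * M.simple r := by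
    rintro r ⟨u, g⟩
    by_cases hu : IsL M.toCoxeterSystem J (u.1 * M.toCoxeterSystem.simple r)
    · rw [sp_up _ _ _ _ _ hu]
      show κ g * (u.1 * M.toCoxeterSystem.simple r) = κ g * u.1 * M.simple r
      rw [hs, mul_assoc]
    · rw [sp_stay _ _ _ _ _ hu]
      obtain ⟨h1, h2⟩ := jj_spec M.toCoxeterSystem u.2 hu
      show κ (g * f (jj M.toCoxeterSystem J u.1 r)) * u.1 = κ g * u.1 * M.simple r
      rw [hs] at h2
      rw [map_mul, hκ _ h1, mul_assoc, mul_assoc, ← h2]
  induction x using art_induction generalizing p with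
  | h1 =>
    rw [map_one, map_one, mul_one]
    rfl
  | h2 x r ih =>
    rw [ra_mul, ra_gen, hgen, ih, map_mul, toCox_gen, mul_assoc]
  | h3 x r ih =>
    rw [ra_mul, map_inv, unop_inv]
    obtain ⟨q, hq⟩ : ∃ q, q = ((ra M.toCoxeterSystem J f hM hf (gen M r)).unop)⁻¹
        ((ra M.toCoxeterSystem J f hM hf x).unop p) := ⟨_, rfl⟩
    rw [← hq]
    have h1 : sp M.toCoxeterSystem J f r q = (ra M.toCoxeterSystem J f hM hf x).unop p := by
      rw [← ra_gen M.toCoxeterSystem J f hM hf r q, hq]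
      exact Equiv.apply_symm_apply _ _
    have h2 := hgen r q
    rw [h1, ih] at h2
    rw [map_mul, map_inv, toCox_gen, ← mul_assoc, h2, mul_inv_cancel_right]

theorem ra_base {j : B} (hj : j ∈ J) (g : N) :
    (ra M.toCoxeterSystem J f hM hf (gen M j)).unop (bpt M J, g) = (bpt M J, g * f j) := by
  have h1 : (1 : M.Group) * M.toCoxeterSystem.simple j = M.toCoxeterSystem.simple j * 1 := by
    rw [one_mul, mul_one]
  have h2 : ¬ IsL M.toCoxeterSystem J ((bpt M J).1 * M.toCoxeterSystem.simple j) :=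
    not_isL M.toCoxeterSystem (isL_one _ _) hj h1
  rw [ra_gen, sp_stay _ _ _ _ _ h2]
  have h3 : jj M.toCoxeterSystem J (bpt M J).1 j = j :=
    jj_eq M.toCoxeterSystem (injOn_of M.toCoxeterSystem hM) hj h1
  rw [h3]

theorem rho_fst (κ : N →* M.Group) (hκ : ∀ j ∈ J, κ (f j) = M.simple j) (hκ' : ∀ g, κ g ∈ par M.toCoxeterSystem J)
    {x : Art M} (hx : x ∈ pureA M) (g : N) :
    ((ra M.toCoxeterSystem J f hM hf x).unop (bpt M J, g)).1 = bpt M J := by
  have h1 := ra_theta J f hM hf κ hκ x (bpt M J, g)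
  have h2 : toCox M x = 1 := hx
  rw [h2, mul_one] at h1
  apply Subtype.ext
  exact isL_unique M.toCoxeterSystem (Subtype.prop _) (isL_one _ _) (hκ' _) (hκ' g) h1

/-- the retraction of the pure Artin group -/
noncomputable def rho (κ : N →* M.Group) (hκ : ∀ j ∈ J, κ (f j) = M.simple j) (hκ' : ∀ g, κ g ∈ par M.toCoxeterSystem J) :
    pureA M →* N where
  toFun x := ((ra M.toCoxeterSystem J f hM hf x.1).unop (bpt M J, 1)).2
  map_one' := by
    have h1 : ((1 : pureA M) : Art M) = 1 := rfl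
    rw [h1, map_one]
    rfl
  map_mul' := by
    intro x y
    have h1 : ((x * y : pureA M) : Art M) = x.1 * y.1 := rfl
    rw [h1, ra_mul]
    have h2 := rho_fst J f hM hf κ hκ hκ' x.2 1
    have h3 : (ra M.toCoxeterSystem J f hM hf x.1).unop (bpt M J, 1) =
        (bpt M J, ((ra M.toCoxeterSystem J f hM hf x.1).unop (bpt M J, 1)).2 * 1) := by
      rw [mul_one]
      exact Prod.ext h2 rfl
    rw [h3, ra_left, mul_one]

theorem kappa_rho (κ : N →* M.Group) (hκ : ∀ j ∈ J, κ (f j) = M.simple j) (hκ' : ∀ g, κ g ∈ par M.toCoxeterSystem J)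
    (x : pureA M) : κ (rho J f hM hf κ hκ hκ' x) = 1 := by
  have h1 := ra_theta J f hM hf κ hκ x.1 (bpt M J, 1)
  have h2 : toCox M x.1 = 1 := x.2
  have h3 := rho_fst J f hM hf κ hκ hκ' x.2 1
  rw [h2, mul_one, h3] at h1
  have h4 : ((bpt M J).1 : M.Group) = 1 := rfl
  rw [h4, mul_one, map_one, mul_one] at h1
  exact h1

end Pool.Agent.H52.PAG
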