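import Pool.Agent.H52.PAG.Mat

/-!
# [H52 PAG RUN] the run of a word on the minimal representatives

`jj u r` is a `j ∈ J` with `u * s_r = s_j * u`, if there is one (`deodhar`), else `r`.
`run u w = (end, output)`: a letter `r` either moves `u` to `u * s_r` (if this is again minimal) or gives the output `jj u r`.
`run_spec` by induction on `w` for all `u`: `leftInvSeq (r :: w) = s_r :: map (MulAut.conj s_r) (leftInvSeq w)`, and
`conj u ∘ conj s_r = conj (u s_r)`.  Case move: use the induction hypothesis for `u s_r` and `List.Sublist.cons`.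
Case output `j`: `leftInvSeq (j :: out) = s_j :: map (conj s_j) (leftInvSeq out)`, `s_j = u s_r u⁻¹`, `s_j u = u s_r`, `List.Sublist.cons_cons`
(or `cons₂`) and `List.Sublist.map`.
`run_braid`: both words have the same product (`prod_altw`), so `π out * u₁ = π out' * u₂` (both `= u * w₀`), `isL_unique` gives `u₁ = u₂` and then
`π out = π out'`; both outputs are reduced (`nodup_altw` for `i j` and for `j i` with `M.symmetric`, an injective map of a nodup list, a sublist of it,
`red_of_nodup`); `mats`.
-/

namespace Pool.Agent.H52.PAG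

open CoxeterSystem Pool.H8.CDW

variable {B W : Type*} [Group W] {M : CoxeterMatrix B}

open Classical in
/-- the output letter -/
noncomputable def jj (cs : CoxeterSystem M W) (J : Set B) (u : W) (r : B) : B :=
  if h : ∃ j ∈ J, u * cs.simple r = cs.simple j * u then h.choose else r

theorem jj_spec (cs : CoxeterSystem M W) {J : Set B} {u : W} (hu : IsL cs J u) {r : B}
    (h : ¬ IsL cs J (u * cs.simple r)) : jj cs J u r ∈ J ∧ u * cs.simple r = cs.simple (jj cs J u r) * u := by
  have h1 := deodhar cs hu h
  unfold jj
  rw [dif_pos h1]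
  exact h1.choose_spec

theorem jj_eq (cs : CoxeterSystem M W) {J : Set B} (hinj : Set.InjOn cs.simple J) {u : W} {r j : B} (hj : j ∈ J)
    (h : u * cs.simple r = cs.simple j * u) : jj cs J u r = j := by
  have h1 : ∃ j ∈ J, u * cs.simple r = cs.simple j * u := ⟨j, hj, h⟩
  unfold jj
  rw [dif_pos h1]
  have h2 := h1.choose_spec
  refine hinj h2.1 hj ?_
  exact mul_right_cancel (h2.2.symm.trans h)

open Classical in
/-- the run of a word -/
noncomputable def run (cs : CoxeterSystem M W) (J : Set B) : W → List B → W × List B
  | u, [] => (u, [])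
  | u, r :: w =>
    if IsL cs J (u * cs.simple r) then run cs J (u * cs.simple r) w
    else ((run cs J u w).1, jj cs J u r :: (run cs J u w).2)

theorem run_spec (cs : CoxeterSystem M W) {J : Set B} (w : List B) (u : W) (hu : IsL cs J u) :
    IsL cs J (run cs J u w).1 ∧ (∀ j ∈ (run cs J u w).2, j ∈ J) ∧
      u * cs.wordProd w = cs.wordProd (run cs J u w).2 * (run cs J u w).1 ∧
      (cs.leftInvSeq (run cs J u w).2).Sublist ((cs.leftInvSeq w).map (MulAut.conj u)) := by
  induction w generalizing u with
  | nil => exact ⟨hu, by simp [run], by simp [run], by simp [run]⟩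
  | cons r w ih =>
    have hl : (cs.leftInvSeq (r :: w)).map (MulAut.conj u) =
        (u * cs.simple r * u⁻¹) :: (cs.leftInvSeq w).map (MulAut.conj (u * cs.simple r)) := by
      rw [leftInvSeq, List.map_cons, List.map_map, MulAut.conj_apply]
      congr 1
      apply List.map_congr_left
      intro t _
      simp [MulAut.conj_apply, mul_assoc]
    by_cases h : IsL cs J (u * cs.simple r)
    · have e : run cs J u (r :: w) = run cs J (u * cs.simple r) w := by
        rw [run, if_pos h]
      obtain ⟨h1, h2, h3, h4⟩ := ih _ h
      rw [e, hl]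
      refine ⟨h1, h2, ?_, h4.cons _⟩
      rw [← h3, wordProd_cons, mul_assoc]
    · have e : run cs J u (r :: w) = ((run cs J u w).1, jj cs J u r :: (run cs J u w).2) := by
        rw [run, if_neg h]
      obtain ⟨h1, h2, h3, h4⟩ := ih _ hu
      obtain ⟨h5, h6⟩ := jj_spec cs hu h
      rw [e, hl]
      refine ⟨h1, ?_, ?_, ?_⟩
      · intro j hj
        rcases List.mem_cons.1 hj with rfl | hj
        · exact h5
        · exact h2 j hj
      · show u * cs.wordProd (r :: w) = cs.wordProd (jj cs J u r :: (run cs J u w).2) * (run cs J u w).1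
        rw [wordProd_cons, wordProd_cons, ← mul_assoc, h6, mul_assoc, h3, mul_assoc]
      · show (cs.leftInvSeq (jj cs J u r :: (run cs J u w).2)).Sublist _
        rw [leftInvSeq]
        have h7 : cs.simple (jj cs J u r) = u * cs.simple r * u⁻¹ := by
          rw [h6, mul_inv_cancel_right]
        have h8 : (cs.leftInvSeq w).map (MulAut.conj (u * cs.simple r)) =
            ((cs.leftInvSeq w).map (MulAut.conj u)).map (MulAut.conj (cs.simple (jj cs J u r))) := by
          rw [List.map_map, h6]
          apply List.map_congr_left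
          intro t _
          simp [MulAut.conj_apply, mul_assoc]
        rw [h8, ← h7]
        exact (h4.map _).cons_cons _

theorem run_braid (cs : CoxeterSystem M W) {J : Set B} (hM : ∀ i ∈ J, ∀ j ∈ J, M i j ≠ 0) {N : Type*} [Monoid N] (f : B → N)
    (hf : ∀ i ∈ J, ∀ j ∈ J, alt (f i) (f j) (M i j) = alt (f j) (f i) (M i j)) {i j : B} (hij : i ≠ j)
    (u : W) (hu : IsL cs J u) :
    (run cs J u (altw i j (M i j))).1 = (run cs J u (altw j i (M i j))).1 ∧
      ((run cs J u (altw i j (M i j))).2.map f).prod = ((run cs J u (altw j i (M i j))).2.map f).prod := by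
  obtain ⟨a1, a2, a3, a4⟩ := run_spec cs (altw i j (M i j)) u hu
  obtain ⟨b1, b2, b3, b4⟩ := run_spec cs (altw j i (M i j)) u hu
  have h1 := a3
  rw [prod_altw, b3] at h1
  have h2 : (run cs J u (altw i j (M i j))).1 = (run cs J u (altw j i (M i j))).1 :=
    isL_unique cs a1 b1 (b1_word_mem cs _ a2) (b1_word_mem cs _ b2) h1.symm
  refine ⟨h2, ?_⟩
  rw [h2] at h1
  have h3 := mul_right_cancel h1
  have hinj : Function.Injective (MulAut.conj u : W → W) := (MulAut.conj u).injective
  have ra : cs.IsReduced (run cs J u (altw i j (M i j))).2 :=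
    red_of_nodup cs (a4.nodup ((nodup_altw cs hij).map hinj))
  have rb : cs.IsReduced (run cs J u (altw j i (M i j))).2 := by
    refine red_of_nodup cs (b4.nodup ?_)
    have := nodup_altw cs (i := j) (j := i) hij.symm
    rw [M.symmetric j i] at this
    exact this.map hinj
  exact mats cs J hM f hf ra rb a2 b2 h3.symm

end Pool.Agent.H52.PAG
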