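import Pool.Agent.H52.PAG.Defs

/-!
# [H52 PAG SEG] the dihedral Artin group: the Garside element

`cc (k+2) = cc k`.  `seg k n` is the alternating product `alt (cc k) (cc (k+1)) n`, so `seg 0 m = seg 1 m` is the relation `dg_rel`, and
`seg k m = del` for all `k` (period 2).  `cc_del`: for `k = 0`: `cc 0 * del = cc 0 * seg 1 m = seg 0 (m+1) = seg 0 m * cc m`; in general
`cc k * seg (k+1) m = seg k (m+1) = seg k m * cc (k+m)`.  `del_sq`: `cc k * del^2 = del * cc (k+m) * del = del^2 * cc (k+2m)`, and
`cc (k + 2 m) = cc k`; then `da_induction` (or the centralizer of `del^2` contains the generators).  `seg_two_mul`: `seg_add`.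
`xx k = seg 0 k * cc k ^ 2 * (seg 0 k)⁻¹`.  `xx_add`: `seg 0 (k+m) = seg 0 m * seg m k = del * seg m k = seg 0 k * del`
(`del * seg (k+m) n = seg k n * del`, induction from `cc_del`), `del * cc (k+m)^2 * del⁻¹ = cc k ^ 2`.
`xprod_eq`: with `rseg n = cc (n-1) * ⋯ * cc 0` one has `xprod n = seg 0 n * rseg n` by induction
(`xx n * seg 0 n * rseg n = seg 0 n * cc n * cc n * rseg n`), and `rseg n = seg (n+1) n` (period 2), so `xprod m = del * del`.
`dega`: `dlift (fun _ => Multiplicative.ofAdd 1)`; `seg k n` has degree `n`.
-/

namespace Pool.Agent.H52.PAG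

theorem cc_add_two (m k : ℕ) : cc m (k + 2) = cc m k := by
  unfold cc
  have h : Odd (k + 2) ↔ Odd k := by
    rw [Nat.odd_iff, Nat.odd_iff]
    omega
  exact congrArg (dg m) (decide_eq_decide.2 h)

theorem cc_add_two_mul (m k l : ℕ) : cc m (k + 2 * l) = cc m k := by
  induction l with
  | zero => rfl
  | succ l ih =>
    have h : k + 2 * (l + 1) = k + 2 * l + 2 := by ring
    rw [h, cc_add_two, ih]

theorem seg_eq_alt (m k n : ℕ) : seg m k n = alt (cc m k) (cc m (k + 1)) n := by
  induction n generalizing k with
  | zero => rfl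
  | succ n ih =>
    simp only [seg, alt]
    rw [ih, cc_add_two]

theorem seg_add (m k n l : ℕ) : seg m k (n + l) = seg m k n * seg m (k + n) l := by
  induction n generalizing k with
  | zero =>
    simp only [seg, Nat.zero_add, Nat.add_zero, one_mul]
  | succ n ih =>
    have h : n + 1 + l = n + l + 1 := by ring
    have h2 : k + (n + 1) = k + 1 + n := by ring
    rw [h, h2]
    simp only [seg]
    rw [ih, mul_assoc]

theorem seg_succ' (m k n : ℕ) : seg m k (n + 1) = seg m k n * cc m (k + n) := by
  rw [seg_add]
  simp only [seg, mul_one]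

theorem seg_shift (m k n l : ℕ) : seg m (k + 2 * l) n = seg m k n := by
  have h : k + 2 * l + 1 = k + 1 + 2 * l := by ring
  rw [seg_eq_alt, seg_eq_alt, h, cc_add_two_mul, cc_add_two_mul]

theorem seg_del (m k : ℕ) : seg m k m = del m := by
  induction k using Nat.twoStepInduction with
  | zero => rfl
  | one =>
    have h1 : cc m 0 = dg m false := congrArg (dg m) (by decide)
    have h2 : cc m 1 = dg m true := congrArg (dg m) (by decide)
    have h3 : cc m (1 + 1) = dg m false := by rw [← h1]; exact cc_add_two m 0
    unfold del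
    rw [seg_eq_alt, seg_eq_alt, Nat.zero_add, h1, h2, h3]
    exact dg_rel.symm
  | more k ih _ =>
    have h := seg_shift m k m 1
    rw [mul_one] at h
    rw [h, ih]

theorem cc_del (m k : ℕ) : cc m k * del m = del m * cc m (k + m) := by
  have h1 := seg_succ' m k m
  rw [seg_del] at h1
  rw [← h1]
  simp only [seg]
  rw [seg_del]

theorem del_sq (m : ℕ) (x : DA m) : x * del m ^ 2 = del m ^ 2 * x := by
  have hc : ∀ k, Commute (cc m k) (del m ^ 2) := by
    intro k
    have h1 : k + m + m = k + 2 * m := by ring
    have h2 : cc m k * (del m * del m) = del m * del m * cc m k := by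
      rw [← mul_assoc, cc_del, mul_assoc, cc_del, ← mul_assoc, h1, cc_add_two_mul]
    rw [pow_two]
    exact h2
  have hd : ∀ e, Commute (dg m e) (del m ^ 2) := by
    intro e
    cases e with
    | false =>
      have h1 : cc m 0 = dg m false := congrArg (dg m) (by decide)
      rw [← h1]
      exact hc 0
    | true =>
      have h1 : cc m 1 = dg m true := congrArg (dg m) (by decide)
      rw [← h1]
      exact hc 1
  have h : Commute x (del m ^ 2) := by
    refine da_induction (P := fun x => Commute x (del m ^ 2)) ?_ (fun x i hx => ?_)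
      (fun x i hx => ?_) x
    · exact Commute.one_left _
    · exact Commute.mul_left hx (hd i)
    · exact Commute.mul_left hx (hd i).inv_left
  exact h

theorem seg_two_mul (m : ℕ) : seg m 0 (2 * m) = del m ^ 2 := by
  rw [two_mul, seg_add, seg_del, seg_del, pow_two]

/-- the generators of the pure subgroup -/
def xx (m k : ℕ) : DA m := seg m 0 k * cc m k ^ 2 * (seg m 0 k)⁻¹

theorem xx_add (m k : ℕ) : xx m (k + m) = xx m k := by
  have h1 : m + k = k + m := Nat.add_comm m k
  have h2 : seg m 0 (k + m) = seg m 0 k * del m := by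
    rw [seg_add, seg_del]
  have h3 : cc m k = del m * cc m (k + m) * (del m)⁻¹ := by
    rw [← cc_del, mul_inv_cancel_right]
  unfold xx
  rw [h2, h3]
  simp only [pow_two]
  group

/-- `xx (n-1) * ⋯ * xx 0` -/
def xprod (m : ℕ) : ℕ → DA m
  | 0 => 1
  | n + 1 => xx m n * xprod m n

private def rs (m : ℕ) : ℕ → DA m
  | 0 => 1
  | n + 1 => cc m n * rs m n

theorem xprod_eq (m : ℕ) : xprod m m = del m ^ 2 := by
  have h1 : ∀ n, xprod m n = seg m 0 n * rs m n := by
    intro n
    induction n with
    | zero =>
      simp only [xprod, seg, rs, mul_one]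
    | succ n ih =>
      rw [seg_succ', Nat.zero_add]
      simp only [xprod, rs]
      rw [ih]
      unfold xx
      simp only [pow_two]
      group
  have h2 : ∀ n, rs m n = seg m (n + 1) n := by
    intro n
    induction n with
    | zero => rfl
    | succ n ih =>
      have h3 := seg_shift m n (n + 1) 1
      rw [mul_one] at h3
      have h4 : n + 1 + 1 = n + 2 := by ring
      rw [h4, h3]
      simp only [rs, seg]
      rw [ih]
  rw [h1, h2, seg_del, seg_del, pow_two]

/-- the degree -/
def dega (m : ℕ) : DA m →* Multiplicative ℤ := dlift (fun _ => Multiplicative.ofAdd 1) rfl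

theorem dega_del (m : ℕ) : dega m (del m) = Multiplicative.ofAdd (m : ℤ) := by
  have h : ∀ n k, dega m (seg m k n) = Multiplicative.ofAdd (n : ℤ) := by
    intro n
    induction n with
    | zero =>
      intro k
      simp only [seg, map_one, Nat.cast_zero, ofAdd_zero]
    | succ n ih =>
      intro k
      simp only [seg]
      rw [map_mul, ih]
      have h1 : dega m (cc m k) = Multiplicative.ofAdd (1 : ℤ) := dlift_dg _ _ _
      rw [h1, ← ofAdd_add]
      congr 1
      push_cast
      ring
  exact h m 0

end Pool.Agent.H52.PAG
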